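import Pool.Agent.Helper20.GT.Defs
import Pool.Agent.Helper27.EB.Mix2C
import Pool.Agent.Helper27.EB.Compactn

/-!
# GT-3: a blocked configuration from a generic solution

As in `Mix2C`: windows `W_c` and patterns `α_c` (for `c = a, a'`) such that residually many `x` with `x = α_c` on `W_c` have `(F x).1 = c`.  Let all coordinates of the windows be bounded by `M`,
`K = 2 M + 1`, `m = K ^ 2 + 1`.  The lattice `Λ` of all `v = u e_{i0} + t e_{i1}` with `t ≡ K u mod m`: two different points have sup-distance `≥ K`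
(`|p|, |q| < K`, `q ≡ K p mod K^2 + 1` implies `q = K p`, so `p = q = 0`), so the windows around the points of `Λ` are disjoint.  Each row and each column meets `Λ` in a
progression with difference `m` (`K * K ≡ -1`).  The value at the point `(u, t)` is `a` or `a'` according to the parity of `u / m + t / m`, so it alternates in each row and each column: `L = 2 m`.
For a finite set `V` of cells the `x` with the prescribed patterns around the points of `Λ ∩ V` form a nonempty open set; a residually typical `x` in it (`resid_inv` for all `g`) gives a configuration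
`y_V g = F (sh g x)` with `Loc y_V g` for all `g` and the prescribed values `(y_V v).1` at `v ∈ Λ ∩ V`.  Compactness: `EB.compact_ext`.
-/

set_option autoImplicit false

namespace GTm

open EB NI BM

private theorem blk_shift {d : ℕ} (y : Gd d → Lab) (v : Gd d) :
    Loc (fun g => y (v + g)) 0 ↔ Loc y v := by
  constructor
  · rintro ⟨h1, h2, h3⟩
    refine ⟨fun e he => ?_, fun e f he hf h4 h5 => ?_, fun e f he hf h4 h5 h6 h7 => ?_⟩
    · simpa using h1 e he
    · simpa [add_assoc] using h2 e f he hf h4 h5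
    · have := h3 e f he hf h4 h5 (by simpa using h6) (by simpa using h7)
      simpa [add_assoc] using this
  · rintro ⟨h1, h2, h3⟩
    refine ⟨fun e he => ?_, fun e f he hf h4 h5 => ?_, fun e f he hf h4 h5 h6 h7 => ?_⟩
    · simpa using h1 e he
    · simpa [add_assoc] using h2 e f he hf h4 h5
    · have := h3 e f he hf h4 h5 (by simpa using h6) (by simpa using h7)
      simpa [add_assoc] using this

private theorem blk_un {d : ℕ} {e : Gd d} (he : Un e) (i : Fin d) : |e i| ≤ 1 := by
  obtain ⟨j, rfl | rfl⟩ := he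
  · by_cases h : i = j
    · subst h; simp [un]
    · simp [un, Pi.single_eq_of_ne h]
  · by_cases h : i = j
    · subst h; simp [un]
    · simp [un, Pi.single_eq_of_ne h]

private theorem blk_congr {d : ℕ} {y y' : Gd d → Lab}
    (h : ∀ b : Gd d, (∀ i, |b i| ≤ 2) → y' b = y b) (hy : Loc y' 0) : Loc y 0 := by
  have h0 : y' 0 = y 0 := h 0 fun i => by simp
  have h1 : ∀ e, Un e → y' (0 + e) = y (0 + e) := fun e he => h _ fun i => by
    have := blk_un he i
    simp only [Pi.add_apply, Pi.zero_apply, zero_add]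
    linarith
  have h2 : ∀ e f, Un e → Un f → y' (0 + e + f) = y (0 + e + f) := fun e f he hf => h _ fun i => by
    have h3 := blk_un he i
    have h4 := blk_un hf i
    have h5 := abs_add_le (e i) (f i)
    simp only [Pi.add_apply, Pi.zero_apply, zero_add]
    linarith
  obtain ⟨a1, a2, a3⟩ := hy
  refine ⟨fun e he => ?_, fun e f he hf h4 h5 => ?_, fun e f he hf h4 h5 h6 h7 => ?_⟩
  · have := a1 e he
    rwa [h0, h1 e he] at this
  · have := a2 e f he hf h4 h5
    rwa [h0, h1 e he, h1 f hf, h2 e f he hf] at this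
  · have := a3 e f he hf h4 h5 (by rw [h0, h1 e he]; exact h6) (by rw [h0, h1 f hf]; exact h7)
    rwa [h0, h2 e e he he, h2 f f hf hf] at this

private theorem blk_bound {d : ℕ} (W : Finset (Gd d)) :
    ∃ M : ℕ, ∀ w ∈ W, ∀ i, |w i| ≤ (M : ℤ) := by
  refine ⟨W.sup fun w => Finset.univ.sup fun i => (w i).natAbs, fun w hw i => ?_⟩
  have h1 : (w i).natAbs ≤ Finset.univ.sup fun i => (w i).natAbs :=
    Finset.le_sup (f := fun i => (w i).natAbs) (Finset.mem_univ i)
  have h2 : (Finset.univ.sup fun i => (w i).natAbs) ≤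
      W.sup fun w => Finset.univ.sup fun i => (w i).natAbs :=
    Finset.le_sup (f := fun w : Gd d => Finset.univ.sup fun i => (w i).natAbs) hw
  have h3 := h1.trans h2
  rw [Int.abs_eq_natAbs]
  exact_mod_cast h3

private theorem blk_cont {d : ℕ} (g : Gd d) : Continuous (sh g : Om d → Om d) :=
  continuous_pi fun h => continuous_apply (h + g)

private theorem blk_win {d : ℕ} (U : Set (Om d)) (hU : IsOpen U) (hne : U.Nonempty) :
    ∃ (W : Finset (Gd d)) (α : Om d), ∀ y : Om d, (∀ w ∈ W, y w = α w) → y ∈ U := by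
  obtain ⟨α, hα⟩ := hne
  obtain ⟨I, u, h1, h2⟩ := isOpen_pi_iff.1 hU α hα
  refine ⟨I, α, fun y hy => h2 fun i hi => ?_⟩
  rw [hy i hi]
  exact (h1 i hi).2

/-- the lattice -/
private def Lam {d : ℕ} (i0 i1 : Fin d) (K : ℤ) (v : Gd d) : Prop :=
  (∀ i, i ≠ i0 → i ≠ i1 → v i = 0) ∧ (K ^ 2 + 1) ∣ (v i1 - K * v i0)

private theorem blk_lat {d : ℕ} {i0 i1 : Fin d} {M : ℕ} {v v' : Gd d}
    (hv : Lam i0 i1 (2 * M + 1) v) (hv' : Lam i0 i1 (2 * M + 1) v')
    (h : ∀ i, |v i - v' i| ≤ 2 * (M : ℤ)) : v = v' := by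
  have hp := h i0
  have hq := h i1
  set p := v i0 - v' i0 with hpdef
  set q := v i1 - v' i1 with hqdef
  have hM : (0 : ℤ) ≤ M := Int.natCast_nonneg M
  have hdvd : ((2 * (M : ℤ) + 1) ^ 2 + 1) ∣ (q - (2 * M + 1) * p) := by
    have := dvd_sub hv.2 hv'.2
    have h2 : v i1 - (2 * (M : ℤ) + 1) * v i0 - (v' i1 - (2 * M + 1) * v' i0) =
        q - (2 * M + 1) * p := by
      rw [hpdef, hqdef]; ring
    rwa [h2] at this
  have hab : |q - (2 * (M : ℤ) + 1) * p| < (2 * (M : ℤ) + 1) ^ 2 + 1 := by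
    have h1 := abs_sub q ((2 * (M : ℤ) + 1) * p)
    rw [abs_mul, abs_of_nonneg (by linarith : (0 : ℤ) ≤ 2 * M + 1)] at h1
    have h2 : (2 * (M : ℤ) + 1) * |p| ≤ (2 * M + 1) * (2 * M) :=
      mul_le_mul_of_nonneg_left hp (by linarith)
    nlinarith
  have h0 : q - (2 * (M : ℤ) + 1) * p = 0 := Int.eq_zero_of_abs_lt_dvd hdvd hab
  have hp0 : p = 0 := by
    by_contra hne
    have h1 : 1 ≤ |p| := Int.one_le_abs hne
    have h2 : q = (2 * (M : ℤ) + 1) * p := by linarith
    rw [h2, abs_mul, abs_of_nonneg (by linarith : (0 : ℤ) ≤ 2 * M + 1)] at hq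
    nlinarith
  have hq0 : q = 0 := by rw [hp0] at h0; linarith
  funext i
  by_cases h1 : i = i0
  · subst h1; linarith
  · by_cases h2 : i = i1
    · subst h2; linarith
    · rw [hv.1 i h1 h2, hv'.1 i h1 h2]

/-- the prescribed value -/
private def tgt {d : ℕ} (i0 i1 : Fin d) (K : ℤ) (v : Gd d) : Prop :=
  Even (v i0 / (K ^ 2 + 1) + v i1 / (K ^ 2 + 1))

private theorem blk_co0 {d : ℕ} {i0 i1 : Fin d} (h01 : i0 ≠ i1) (u v : ℤ) :
    (u • un i0 + v • un i1 : Gd d) i0 = u := by
  simp [un, Pi.single_eq_of_ne h01]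

private theorem blk_co1 {d : ℕ} {i0 i1 : Fin d} (h01 : i0 ≠ i1) (u v : ℤ) :
    (u • un i0 + v • un i1 : Gd d) i1 = v := by
  simp [un, Pi.single_eq_of_ne h01.symm]

private theorem blk_co2 {d : ℕ} {i0 i1 : Fin d} (u v : ℤ) (i : Fin d) (h0 : i ≠ i0)
    (h1 : i ≠ i1) : (u • un i0 + v • un i1 : Gd d) i = 0 := by
  simp [un, Pi.single_eq_of_ne h0, Pi.single_eq_of_ne h1]

/-- a point of a progression in a window -/
private theorem blk_prog (m : ℤ) (hm : 0 < m) (u c : ℤ) :
    ∃ i : ℕ, (i : ℤ) < m ∧ m ∣ (u + i - c) := by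
  refine ⟨((c - u) % m).toNat, ?_, ?_⟩
  · rw [Int.toNat_of_nonneg (Int.emod_nonneg _ hm.ne')]
    exact Int.emod_lt_of_pos _ hm
  · rw [Int.toNat_of_nonneg (Int.emod_nonneg _ hm.ne')]
    have h1 := Int.emod_add_mul_ediv (c - u) m
    refine ⟨-((c - u) / m), ?_⟩
    linarith

private theorem blk_flip {m : ℤ} (hm : 0 < m) (u r : ℤ) :
    Even ((u + m) / m + r) ↔ ¬ Even (u / m + r) := by
  rw [Int.add_ediv_of_dvd_right (dvd_refl m), Int.ediv_self hm.ne']
  rw [show u / m + 1 + r = (u / m + r) + 1 by ring, Int.even_add_one]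

theorem exists_blocked {d : ℕ} {i0 i1 : Fin d} (h01 : i0 ≠ i1) {F : Om d → Lab} (hF : Ms F)
    (hres : ∀ᶠ x in residual (Om d), ∀ g, Loc (fun h => F (sh h x)) g) {a a' : ZMod 3}
    (haa : a ≠ a') (ha : ∃ᶠ x in residual (Om d), (F x).1 = a)
    (ha' : ∃ᶠ x in residual (Om d), (F x).1 = a') :
    ∃ (y : Gd d → Lab) (L : ℕ), (∀ g, Loc y g) ∧
      (∀ u v : ℤ, ∃ i : ℕ, i < L ∧
        (y ((u + i) • un i0 + v • un i1)).1 ≠ (y (u • un i0 + v • un i1)).1) ∧
      ∀ u v : ℤ, ∃ i : ℕ, i < L ∧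
        (y (u • un i0 + (v + i) • un i1)).1 ≠ (y (u • un i0 + v • un i1)).1 := by
  classical
  have hf : Ms fun x => (F x).1 := hF.comp Prod.fst
  choose U hUo hU using fun c : ZMod 3 => (hf c).residualEq_isOpen
  have hR : ∀ᶠ x in residual (Om d), ∀ c, ((F x).1 = c ↔ x ∈ U c) := by
    rw [Filter.eventually_all]
    intro c
    filter_upwards [hU c] with x hx
    exact iff_of_eq hx
  have hne : ∀ c, (∃ᶠ x in residual (Om d), (F x).1 = c) → (U c).Nonempty := by
    intro c hc
    obtain ⟨x, hx1, hx2⟩ := (hc.and_eventually hR).exists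
    exact ⟨x, (hx2 c).1 hx1⟩
  obtain ⟨W, α, hW⟩ := blk_win (U a) (hUo a) (hne a ha)
  obtain ⟨W', α', hW'⟩ := blk_win (U a') (hUo a') (hne a' ha')
  obtain ⟨M, hM⟩ := blk_bound (W ∪ W')
  set K : ℤ := 2 * M + 1 with hK
  set m : ℤ := K ^ 2 + 1 with hm
  have hmpos : 0 < m := by rw [hm]; positivity
  let cv : Gd d → ZMod 3 := fun v => if tgt i0 i1 K v then a else a'
  let E : Gd d → Set Lab := fun v => {s | Lam i0 i1 K v → s.1 = cv v}
  let B : Set (Gd d) := {b | ∀ i, |b i| ≤ 2}
  have hB : B.Finite := by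
    have h1 : B ⊆ Set.Icc (fun _ => (-2 : ℤ)) fun _ => (2 : ℤ) := by
      intro b hb
      exact ⟨fun i => (abs_le.1 (hb i)).1, fun i => (abs_le.1 (hb i)).2⟩
    exact (Set.finite_Icc _ _).subset h1
  let A : Set (B → Lab) := {p | ∃ y : Gd d → Lab, (∀ b : B, y b = p b) ∧ Loc y 0}
  -- the windows around the points of the lattice
  let Wn : Gd d → Finset (Gd d) := fun v => if tgt i0 i1 K v then W else W'
  let αn : Gd d → Om d := fun v => if tgt i0 i1 K v then α else α'
  have hWn : ∀ v, Wn v ⊆ W ∪ W' := by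
    intro v
    change (if tgt i0 i1 K v then W else W') ⊆ W ∪ W'
    split_ifs
    · exact Finset.subset_union_left
    · exact Finset.subset_union_right
  have hUn : ∀ v (z : Om d), (∀ w ∈ Wn v, z w = αn v w) → z ∈ U (cv v) := by
    intro v z hz
    by_cases ht : tgt i0 i1 K v
    · simp only [Wn, αn, cv, if_pos ht] at hz ⊢
      exact hW z hz
    · simp only [Wn, αn, cv, if_neg ht] at hz ⊢
      exact hW' z hz
  have hdisj : ∀ v v', Lam i0 i1 K v → Lam i0 i1 K v' → ∀ w ∈ Wn v, ∀ w' ∈ Wn v',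
      w + v = w' + v' → v = v' := by
    intro v v' hv hv' w hw w' hw' h
    refine blk_lat hv hv' fun i => ?_
    have h1 := hM w (hWn v hw) i
    have h2 := hM w' (hWn v' hw') i
    have h3 : v i - v' i = w' i - w i := by
      have := congrFun h i
      simp only [Pi.add_apply] at this
      linarith
    rw [h3]
    have h4 := abs_sub (w' i) (w i)
    linarith
  obtain ⟨z, hz⟩ : ∃ z : Om d, ∀ v, Lam i0 i1 K v → sh v z ∈ U (cv v) := by
    refine ⟨fun h => if hh : ∃ v : Gd d, Lam i0 i1 K v ∧ h - v ∈ Wn v then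
      αn hh.choose (h - hh.choose) else false, fun v hv => hUn v _ fun w hw => ?_⟩
    have hh : ∃ v' : Gd d, Lam i0 i1 K v' ∧ (w + v) - v' ∈ Wn v' :=
      ⟨v, hv, by rwa [add_sub_cancel_right]⟩
    have h1 : hh.choose = v :=
      hdisj _ _ hh.choose_spec.1 hv _ hh.choose_spec.2 w hw (by abel)
    change (if hh : ∃ v' : Gd d, Lam i0 i1 K v' ∧ (w + v) - v' ∈ Wn v' then
      αn hh.choose ((w + v) - hh.choose) else false) = _
    rw [dif_pos hh, h1, add_sub_cancel_right]
  obtain ⟨y, hy1, hy2⟩ := compact_ext B hB A E (by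
    intro V
    let O : Set (Om d) := ⋂ v ∈ V.filter (Lam i0 i1 K), (sh v ⁻¹' U (cv v))
    have hO : IsOpen O := isOpen_biInter_finset fun v _ => (hUo _).preimage (blk_cont v)
    have hOne : O.Nonempty := by
      refine ⟨z, Set.mem_iInter₂.2 fun v hv => ?_⟩
      exact hz v (Finset.mem_filter.1 hv).2
    have hr : ∀ᶠ x in residual (Om d), (∀ g, Loc (fun h => F (sh h x)) g) ∧
        ∀ v ∈ V, ∀ c, ((F (sh v x)).1 = c ↔ sh v x ∈ U c) := by
      refine hres.and ?_
      rw [Filter.eventually_all_finset]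
      intro v _
      exact resid_inv d v _ hR
    obtain ⟨x, hx1, hx2, hx3⟩ := (dense_of_mem_residual hr).inter_open_nonempty _ hO hOne
    refine ⟨fun g => F (sh g x), fun v => ?_, fun v hv hl => ?_⟩
    · exact ⟨fun g => F (sh (v + g) x), fun b => rfl,
        (blk_shift (fun g => F (sh g x)) v).2 (hx2 v)⟩
    · refine (hx3 v hv _).2 ?_
      exact Set.mem_iInter₂.1 hx1 v (Finset.mem_filter.2 ⟨hv, hl⟩))
  have hmn : ((m.toNat : ℕ) : ℤ) = m := Int.toNat_of_nonneg hmpos.le
  -- values at two points of the lattice are different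
  have hval : ∀ v, Lam i0 i1 K v → (y v).1 = cv v := fun v hv => hy2 v hv
  have hkk : ∀ t c : ℤ, m ∣ (t - -(K * c)) → m ∣ (c - K * t) := by
    rintro t c ⟨k, hk⟩
    refine ⟨c - K * k, ?_⟩
    have h1 : t = m * k - K * c := by linarith
    rw [h1, hm]; ring
  refine ⟨y, 2 * m.toNat, fun g => ?_, fun u v => ?_, fun u v => ?_⟩
  · obtain ⟨y', h1, h2⟩ := hy1 g
    refine (blk_shift y g).1 (blk_congr (fun b hb => ?_) h2)
    exact h1 ⟨b, hb⟩
  · obtain ⟨i, hi1, hi2⟩ := blk_prog m hmpos u (-(K * v))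
    have hl1 : Lam i0 i1 K ((u + i) • un i0 + v • un i1) := by
      refine ⟨blk_co2 _ _, ?_⟩
      rw [blk_co0 h01, blk_co1 h01]
      exact hkk _ _ hi2
    have hl2 : Lam i0 i1 K ((u + (i + m.toNat : ℕ)) • un i0 + v • un i1) := by
      refine ⟨blk_co2 _ _, ?_⟩
      rw [blk_co0 h01, blk_co1 h01]
      refine hkk _ _ ?_
      push_cast
      rw [hmn]
      have : u + (i + m) - -(K * v) = (u + i - -(K * v)) + m := by ring
      rw [this]
      exact dvd_add hi2 (dvd_refl m)
    have h1 := hval _ hl1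
    have h2 := hval _ hl2
    have h3 : cv ((u + (i + m.toNat : ℕ)) • un i0 + v • un i1) ≠
        cv ((u + i) • un i0 + v • un i1) := by
      have h4 : tgt i0 i1 K ((u + (i + m.toNat : ℕ)) • un i0 + v • un i1) ↔
          ¬ tgt i0 i1 K ((u + i) • un i0 + v • un i1) := by
        unfold tgt
        rw [blk_co0 h01, blk_co1 h01, blk_co0 h01, blk_co1 h01]
        push_cast
        rw [hmn, show u + ((i : ℤ) + m) = (u + i) + m by ring]
        exact blk_flip hmpos (u + i) _
      by_cases ht : tgt i0 i1 K ((u + i) • un i0 + v • un i1)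
      · simp only [cv, if_pos ht, if_neg (fun h => h4.1 h ht)]
        exact haa.symm
      · simp only [cv, if_neg ht, if_pos (h4.2 ht)]
        exact haa
    by_cases h5 : (y ((u + i) • un i0 + v • un i1)).1 = (y (u • un i0 + v • un i1)).1
    · refine ⟨i + m.toNat, by omega, ?_⟩
      rw [← h5, h1, h2]
      exact h3
    · exact ⟨i, by omega, h5⟩
  · obtain ⟨i, hi1, hi2⟩ := blk_prog m hmpos v (K * u)
    have hl1 : Lam i0 i1 K (u • un i0 + (v + i) • un i1) := by
      refine ⟨blk_co2 _ _, ?_⟩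
      rw [blk_co0 h01, blk_co1 h01]
      exact hi2
    have hl2 : Lam i0 i1 K (u • un i0 + (v + (i + m.toNat : ℕ)) • un i1) := by
      refine ⟨blk_co2 _ _, ?_⟩
      rw [blk_co0 h01, blk_co1 h01]
      push_cast
      rw [hmn]
      have : v + (i + m) - K * u = (v + i - K * u) + m := by ring
      rw [this]
      exact dvd_add hi2 (dvd_refl m)
    have h1 := hval _ hl1
    have h2 := hval _ hl2
    have h3 : cv (u • un i0 + (v + (i + m.toNat : ℕ)) • un i1) ≠
        cv (u • un i0 + (v + i) • un i1) := by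
      have h4 : tgt i0 i1 K (u • un i0 + (v + (i + m.toNat : ℕ)) • un i1) ↔
          ¬ tgt i0 i1 K (u • un i0 + (v + i) • un i1) := by
        unfold tgt
        rw [blk_co0 h01, blk_co1 h01, blk_co0 h01, blk_co1 h01]
        push_cast
        rw [hmn, show v + ((i : ℤ) + m) = (v + i) + m by ring, add_comm (u / _),
          add_comm (u / _)]
        exact blk_flip hmpos (v + i) _
      by_cases ht : tgt i0 i1 K (u • un i0 + (v + i) • un i1)
      · simp only [cv, if_pos ht, if_neg (fun h => h4.1 h ht)]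
        exact haa.symm
      · simp only [cv, if_neg ht, if_pos (h4.2 ht)]
        exact haa
    by_cases h5 : (y (u • un i0 + (v + i) • un i1)).1 = (y (u • un i0 + v • un i1)).1
    · refine ⟨i + m.toNat, by omega, ?_⟩
      rw [← h5, h1, h2]
      exact h3
    · exact ⟨i, by omega, h5⟩

end GTm
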