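import Pool.Agent.Helper20.GT.Defs

/-!
# GT-1: the rules at a cell and the allowed balls

`BM.adj_iff_un`, `BM.mem_ball_un`, `BM.mem_ball_two`, `BM.Un.eq_of`.  A perpendicular pair `e`, `f` of neighbours of `0` is a pair of unit
vectors with `f ≠ e`, `f ≠ -e` (the common neighbour is `e + f`); `Str w w'` for `w = e` means `w' = e + e`.
-/

set_option autoImplicit false

namespace GTm

open EB NI BM

private theorem dc_nz {d : ℕ} {e : Gd d} (h : Un e) : ∃ i, e i ≠ 0 := by
  by_contra hc
  push Not at hc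
  exact h.ne_zero (funext hc)

private theorem dc_corner {d : ℕ} {e f w : Gd d} (he : Un e) (hf : Un f) (ha : Un (w - e))
    (hb : Un (w - f)) (hne : e ≠ f) (hw : w ≠ 0) : w = e + f ∧ f ≠ -e := by
  have h1 : f ≠ -e := by
    intro hfe
    obtain ⟨i, hi⟩ := dc_nz he
    have b1 := ha.bd i
    have b2 := hb.bd i
    have b3 := he.bd i
    rw [hfe] at b2 hb
    simp only [Pi.sub_apply, Pi.neg_apply] at b1 b2
    have h5 : (w - e) i = (-e) i := by
      simp only [Pi.sub_apply, Pi.neg_apply]
      omega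
    have h6 := ha.eq_of he.neg h5 (by rw [h5, Pi.neg_apply]; omega)
    apply hw
    have : w = (w - e) + e := by abel
    rw [this, h6, neg_add_cancel]
  refine ⟨?_, h1⟩
  obtain ⟨j, hj⟩ := dc_nz hf
  have ej : e j = 0 := by
    by_contra hc
    have b1 := he.bd j
    have b2 := hf.bd j
    rcases (by omega : e j = f j ∨ e j = -f j) with h | h
    · exact hne (he.eq_of hf h hc)
    · have h7 : f j = (-e) j := by rw [Pi.neg_apply]; omega
      exact h1 (hf.eq_of he.neg h7 hj)
  have b1 := ha.bd j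
  have b2 := hb.bd j
  have b3 := hf.bd j
  simp only [Pi.sub_apply] at b1 b2
  have h5 : (w - e) j = f j := by
    by_contra hc
    simp only [Pi.sub_apply] at hc
    have h8 : (w - f) j = (-f) j := by
      simp only [Pi.sub_apply, Pi.neg_apply]
      omega
    have h9 := hb.eq_of hf.neg h8 (by rw [h8, Pi.neg_apply]; omega)
    apply hw
    have : w = (w - f) + f := by abel
    rw [this, h9, neg_add_cancel]
  have h6 := ha.eq_of hf h5 (by rw [h5]; exact hj)
  rw [← h6]
  abel

private theorem dc_dbl {d : ℕ} {e x : Gd d} (he : Un e) (hx : Un x) (h : Un (e + e - x)) :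
    x = e := by
  obtain ⟨i, hi⟩ := dc_nz he
  have b1 := hx.bd i
  have b2 := h.bd i
  have b3 := he.bd i
  simp only [Pi.sub_apply, Pi.add_apply] at b2
  have h5 : x i = e i := by omega
  exact hx.eq_of he h5 (by rw [h5]; exact hi)

private theorem dc_dbl0 {d : ℕ} {e : Gd d} (he : Un e) : e + e ≠ 0 := by
  obtain ⟨i, hi⟩ := dc_nz he
  intro h
  have := congrFun h i
  simp only [Pi.add_apply, Pi.zero_apply] at this
  omega

theorem loc_iff {d : ℕ} (y : Gd d → Lab) (g : Gd d) :
    Loc y g ↔ Allowed d lclG fun b => y (b.1 + g) := by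
  constructor
  · intro h
    refine ⟨⟨?_, ?_⟩, ?_⟩
    · rintro ⟨u, hu⟩ hadj
      have hU : Un u := (adj_zero u).1 hadj
      show Edge (y (0 + g)) (y (u + g))
      rw [zero_add, add_comm]
      exact h.edge u hU
    · rintro ⟨u, hu⟩ ⟨w, hw⟩ ⟨v, hv⟩ a1 a2 a3 a4 n1 n2
      have b1 : Un u := (adj_zero u).1 a1
      have b2 : Un (w - u) := (adj_iff_un u w).1 a2
      have b3 : Un (w - v) := (adj_iff_un v w).1 (show (grid d).Adj w v from a3).symm
      have b4 : Un v := (adj_zero v).1 (show (grid d).Adj v 0 from a4).symm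
      have n3 : u ≠ v := fun e => n1 (Subtype.ext e)
      have n4 : w ≠ 0 := fun e => n2 (Subtype.ext e)
      obtain ⟨e1, e2⟩ := dc_corner b1 b4 b2 b3 n3 n4
      show Quad (y (0 + g)).1 (y (u + g)).1 (y (w + g)).1 (y (v + g)).1
      have q := h.quad u v b1 b4 (Ne.symm n3) e2
      have r1 : u + g = g + u := add_comm _ _
      have r2 : w + g = g + u + v := by rw [e1]; abel
      have r3 : v + g = g + v := add_comm _ _
      rw [zero_add, r1, r2, r3]
      exact q
    · rintro ⟨w, hw⟩ ⟨z, hz⟩ ⟨w', hw'⟩ ⟨z', hz'⟩ a1 a2 a3 a4 a5 a6 a7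
      have b1 : Un w := (adj_zero w).1 a1
      have b2 : Un z := (adj_zero z).1 a2
      obtain ⟨n1, ⟨x, hx⟩, n2, a8, a9⟩ := a3
      have n3 : w ≠ z := fun e => n1 (Subtype.ext e)
      have n4 : x ≠ 0 := fun e => n2 (Subtype.ext e)
      obtain ⟨-, n5⟩ := dc_corner b1 b2 ((adj_iff_un w x).1 a8) ((adj_iff_un z x).1 a9) n3 n4
      have key : ∀ (w : Gd d) (hw : w ∈ ball (grid d) 2 (0 : Gd d)) (w' : Gd d)
          (hw' : w' ∈ ball (grid d) 2 (0 : Gd d)), Un w →
          Str (ballRG (grid d) 2 0 fun b => y (b.1 + g)) ⟨w, hw⟩ ⟨w', hw'⟩ → w' = w + w := by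
        intro w hw w' hw' hU hs
        obtain ⟨c1, c2, c3⟩ := hs
        have c4 : Un (w' - w) := (adj_iff_un w w').1 c1
        have c5 := c3 ⟨w' - w, mem_ball_un c4⟩ ((adj_zero _).2 c4)
          ((adj_iff_un (w' - w) w').2 (by rw [sub_sub_cancel]; exact hU))
        have c6 : w' - w = w := congrArg Subtype.val c5
        rw [sub_eq_iff_eq_add] at c6
        exact c6
      have e1 := key w hw w' hw' b1 a4
      have e2 := key z hz z' hz' b2 a5
      have a6' : (y (w + g)).1 = (y (0 + g)).1 + 1 := a6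
      have a7' : (y (z + g)).1 = (y (0 + g)).1 + 1 := a7
      rw [zero_add, add_comm] at a6' a7'
      have t := h.t2 w z b1 b2 (Ne.symm n3) n5 a6' a7'
      show (y (w' + g)).1 = (y (0 + g)).1 + 2 ∨ (y (z' + g)).1 = (y (0 + g)).1 + 2
      have r1 : w' + g = g + w + w := by rw [e1]; abel
      have r2 : z' + g = g + z + z := by rw [e2]; abel
      rw [zero_add, r1, r2]
      exact t
  · rintro ⟨⟨h1, h2⟩, h3⟩
    refine ⟨fun e he => ?_, fun e f he hf n1 n2 => ?_, fun e f he hf n1 n2 a1 a2 => ?_⟩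
    · have := h1 ⟨e, mem_ball_un he⟩ ((adj_zero e).2 he)
      change Edge (y (0 + g)) (y (e + g)) at this
      rwa [zero_add, add_comm] at this
    · have n3 : e + f ≠ 0 := fun h => n2 (eq_neg_of_add_eq_zero_right h)
      have q := h2 ⟨e, mem_ball_un he⟩ ⟨e + f, mem_ball_two he hf⟩ ⟨f, mem_ball_un hf⟩
        ((adj_zero e).2 he)
        ((adj_iff_un e (e + f)).2 (by rwa [add_sub_cancel_left]))
        ((adj_iff_un (e + f) f).2 (by
          have : f - (e + f) = -e := by abel
          rw [this]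
          exact he.neg))
        (show (grid d).Adj f 0 from ((adj_zero f).2 hf).symm)
        (fun h => n1 (congrArg Subtype.val h).symm)
        (fun h => n3 (congrArg Subtype.val h))
      change Quad (y (0 + g)).1 (y (e + g)).1 (y (e + f + g)).1 (y (f + g)).1 at q
      have r1 : e + g = g + e := add_comm _ _
      have r2 : e + f + g = g + e + f := by abel
      have r3 : f + g = g + f := add_comm _ _
      rwa [zero_add, r1, r2, r3] at q
    · have n3 : e + f ≠ 0 := fun h => n2 (eq_neg_of_add_eq_zero_right h)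
      have st : ∀ {e : Gd d} (he : Un e), Str (ballRG (grid d) 2 0 fun b => y (b.1 + g))
          ⟨e, mem_ball_un he⟩ ⟨e + e, mem_ball_two he he⟩ := by
        intro e he
        refine ⟨(adj_iff_un e (e + e)).2 (by rwa [add_sub_cancel_left]),
          fun h => dc_dbl0 he (congrArg Subtype.val h), ?_⟩
        rintro ⟨x, hx⟩ c1 c2
        exact Subtype.ext (dc_dbl he ((adj_zero x).1 c1) ((adj_iff_un x (e + e)).1 c2))
      have t := h3 ⟨e, mem_ball_un he⟩ ⟨f, mem_ball_un hf⟩ ⟨e + e, mem_ball_two he he⟩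
        ⟨f + f, mem_ball_two hf hf⟩ ((adj_zero e).2 he) ((adj_zero f).2 hf)
        ⟨fun h => n1 (congrArg Subtype.val h).symm, ⟨e + f, mem_ball_two he hf⟩,
          fun h => n3 (congrArg Subtype.val h),
          (adj_iff_un e (e + f)).2 (by rwa [add_sub_cancel_left]),
          (adj_iff_un f (e + f)).2 (by rwa [add_sub_cancel_right])⟩
        (st he) (st hf)
        (by
          show (y (e + g)).1 = (y (0 + g)).1 + 1
          rw [zero_add, add_comm]
          exact a1)
        (by
          show (y (f + g)).1 = (y (0 + g)).1 + 1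
          rw [zero_add, add_comm]
          exact a2)
      change (y (e + e + g)).1 = (y (0 + g)).1 + 2 ∨ (y (f + f + g)).1 = (y (0 + g)).1 + 2 at t
      have r1 : e + e + g = g + e + e := by abel
      have r2 : f + f + g = g + f + f := by abel
      rwa [zero_add, r1, r2] at t

end GTm
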