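import Pool.Agent.Helper20.BM.Dec
import Pool.Agent.Helper24.NI.NoConf
import Pool.Agent.Helper33.NI.IslBasic

/-!
# Project GT (MP_eb515b_lc): an LCL problem which is easy for measures and hard generically

The labels and the rules of the problem NI (nested boxes) and one more rule: if `w = u + e` and `z = u + f` are perpendicular
neighbours of `u` with `l w = l z = l u + 1`, then `l (w + e) = l u + 2` or `l (z + f) = l u + 2` (one of the two sides of the box is
tight: the next box ends right behind it).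
-/

set_option autoImplicit false

namespace GTm

open EB NI BM

/-- `w` and `z` are perpendicular neighbours of the root -/
def Perp {S : Type} (A : RG S) (w z : A.V) : Prop :=
  w ≠ z ∧ ∃ x, x ≠ A.root ∧ A.graph.Adj w x ∧ A.graph.Adj z x

/-- `w'` is behind the neighbour `w` of the root -/
def Str {S : Type} (A : RG S) (w w' : A.V) : Prop :=
  A.graph.Adj w w' ∧ w' ≠ A.root ∧ ∀ x, A.graph.Adj A.root x → A.graph.Adj x w' → x = w

/-- The LCL problem (radius `2`). -/
def lclG : LCL Lab where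
  r := 2
  P A := lcl.P A ∧ ∀ w z w' z', A.graph.Adj A.root w → A.graph.Adj A.root z → Perp A w z →
    Str A w w' → Str A z z' → (A.lab w).1 = (A.lab A.root).1 + 1 →
    (A.lab z).1 = (A.lab A.root).1 + 1 →
    (A.lab w').1 = (A.lab A.root).1 + 2 ∨ (A.lab z').1 = (A.lab A.root).1 + 2
  iso := by
    rintro A B ⟨e, he, hl⟩ ⟨h0, h1⟩
    have hs : ∀ b, A.lab (e.symm b) = B.lab b := fun b => by
      rw [← hl (e.symm b), RelIso.apply_symm_apply]
    have hr : e.symm B.root = A.root := by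
      rw [← he, RelIso.symm_apply_apply]
    have ha : ∀ b c, B.graph.Adj b c → A.graph.Adj (e.symm b) (e.symm c) := fun b c h =>
      e.symm.map_adj_iff.2 h
    have hb : ∀ b c, A.graph.Adj b c → B.graph.Adj (e b) (e c) := fun b c h =>
      e.map_adj_iff.2 h
    have har : ∀ b, B.graph.Adj B.root b → A.graph.Adj A.root (e.symm b) := fun b h => by
      rw [← hr]
      exact ha _ _ h
    have hlr : A.lab A.root = B.lab B.root := by rw [← hr, hs]
    have hp : ∀ u w, Perp B u w → Perp A (e.symm u) (e.symm w) := by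
      rintro u w ⟨h3, x, h4, h5, h6⟩
      exact ⟨fun h => h3 (e.symm.injective h), e.symm x,
        fun h => h4 (e.symm.injective (h.trans hr.symm)), ha _ _ h5, ha _ _ h6⟩
    have ht : ∀ u w, Str B u w → Str A (e.symm u) (e.symm w) := by
      rintro u w ⟨h3, h4, h5⟩
      refine ⟨ha _ _ h3, fun h => h4 (e.symm.injective (h.trans hr.symm)), fun x hx1 hx2 => ?_⟩
      have h6 := h5 (e x)
        (by
          have := hb _ _ hx1
          rwa [he] at this)
        (by
          have := hb _ _ hx2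
          rwa [RelIso.apply_symm_apply] at this)
      rw [← h6, RelIso.symm_apply_apply]
    refine ⟨lcl.iso _ _ ⟨e, he, hl⟩ h0, fun w z w' z' a1 a2 a3 a4 a5 a6 a7 => ?_⟩
    have := h1 _ _ _ _ (har w a1) (har z a2) (hp _ _ a3) (ht _ _ a4) (ht _ _ a5)
      (by rw [hs, hlr]; exact a6) (by rw [hs, hlr]; exact a7)
    rwa [hs, hs, hlr] at this

/-- all rules at the cell `g` -/
structure Loc {d : ℕ} (y : Gd d → Lab) (g : Gd d) : Prop where
  edge : ∀ e, Un e → Edge (y g) (y (g + e))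
  quad : ∀ e f, Un e → Un f → f ≠ e → f ≠ -e →
    Quad (y g).1 (y (g + e)).1 (y (g + e + f)).1 (y (g + f)).1
  t2 : ∀ e f, Un e → Un f → f ≠ e → f ≠ -e → (y (g + e)).1 = (y g).1 + 1 →
    (y (g + f)).1 = (y g).1 + 1 → (y (g + e + e)).1 = (y g).1 + 2 ∨ (y (g + f + f)).1 = (y g).1 + 2

/-- the rule T2 in the plane -/
def PT2 (l : ℤ → ℤ → ZMod 3) : Prop :=
  ∀ x y s t, NIC.Sg s → NIC.Sg t → l (x + s) y = l x y + 1 → l x (y + t) = l x y + 1 →
    l (x + s + s) y = l x y + 2 ∨ l x (y + t + t) = l x y + 2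

/-! ### Stage functions -/

/-- A field of disjoint cubes: `κ g = some (N, m)` if `g` is in the cube `m + [0, N)^d`. -/
structure Fld {d : ℕ} (κ : Gd d → Option (ℕ × Gd d)) : Prop where
  mem : ∀ g N m, κ g = some (N, m) → Sh 0 N (g - m)
  cst : ∀ g N m, κ g = some (N, m) → ∀ g', Sh 0 N (g' - m) → κ g' = some (N, m)

/-- the distance to the walls `o + s Z` -/
def wd (s : ℕ) (o r : ℤ) : ℤ := min ((r - o) % s) (s - (r - o) % s)

/-- the height of the coordinate `k` -/
def fk (N s : ℕ) (o : ℤ) (k : ℕ) (r : ℤ) : ℤ := max (max (2 - r) (2 - (N - 1 - r))) (-3 * k - wd s o r)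

/-- the positions `r`, `r'` are between the same walls -/
def Cell {d : ℕ} (s : ℕ) (o : Fin d → ℤ) (r r' : Gd d) : Prop :=
  ∀ k, (r k - o k) / s = (r' k - o k) / s ∧ (r k - o k) % s ≠ 0 ∧ (r' k - o k) % s ≠ 0

/-- the grid cell of `g` in its cube of the field `κ` is contained in a cube of the field `κ'` -/
def Good {d : ℕ} (κ κ' : Gd d → Option (ℕ × Gd d)) (s : ℕ) (o : Fin d → ℤ) (g : Gd d) : Prop :=
  ∃ N m N' m', κ g = some (N, m) ∧ κ' g = some (N', m') ∧
    ∀ g', Sh 0 N (g' - m) → Cell s o (g - m) (g' - m) → Sh 0 N' (g' - m')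

open Classical in
/-- the height of stage `i` -/
noncomputable def Hs {d : ℕ} (κ : ℕ → Gd d → Option (ℕ × Gd d)) (s : ℕ → ℕ) (o : ℕ → Fin d → ℤ) :
    ℕ → Gd d → ℤ
  | 0, _ => 0
  | i + 1, g =>
    match κ (i + 1) g with
    | none => 0
    | some (N, m) => Finset.univ.fold max
        ((if Good (κ (i + 1)) (κ i) (s (i + 1)) (o (i + 1)) g then Hs κ s o i g else 0) - 3 * d)
        fun k : Fin d => fk N (s (i + 1)) (o (i + 1) k) k (g k - m k)

/-- the phase of a cube -/
def cs {d : ℕ} : Option (ℕ × Gd d) → ℤ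
  | none => 0
  | some (_, m) => ∑ k, m k

open Classical in
/-- the phase at the height `h` of stage `i` -/
noncomputable def Ph {d : ℕ} (κ : ℕ → Gd d → Option (ℕ × Gd d)) (s : ℕ → ℕ) (o : ℕ → Fin d → ℤ) :
    ℕ → Gd d → ℤ → ℤ
  | 0, g, _ => cs (κ 0 g)
  | i + 1, g, h =>
    if Good (κ (i + 1)) (κ i) (s (i + 1)) (o (i + 1)) g ∧ h ≤ 2 - 3 * d then
      Ph κ s o i g (h + 3 * d)
    else cs (κ (i + 1) g)

/-- the label of stage `i` -/
noncomputable def Lb {d : ℕ} (κ : ℕ → Gd d → Option (ℕ × Gd d)) (s : ℕ → ℕ) (o : ℕ → Fin d → ℤ)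
    (i : ℕ) (g : Gd d) : Lab :=
  match κ i g with
  | none => (0, false)
  | some _ => (((Hs κ s o i g : ℤ) : ZMod 3), NI.par (∑ k, g k - Ph κ s o i g (Hs κ s o i g)))

/-- the radius needed for stage `i` -/
def rho (d i : ℕ) : ℕ := 3 * d * i + 2

/-- The conditions at the cell `g` under which the labels of the stages `i` and `i + 1` agree. -/
def Trans {d : ℕ} (κ : ℕ → Gd d → Option (ℕ × Gd d)) (s : ℕ → ℕ) (o : ℕ → Fin d → ℤ) (i : ℕ)
    (g : Gd d) : Prop :=
  ∃ N m N' m', κ i g = some (N, m) ∧ κ (i + 1) g = some (N', m') ∧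
    Sh (s (i + 1)) N (g - m) ∧ Sh (rho d (i + 1)) N' (g - m') ∧
    ∀ k, (rho d (i + 1) : ℤ) ≤ wd (s (i + 1)) (o (i + 1) k) (g k - m' k)

/-- The cubes seen from `x`: `Tp a I n x g N m`: `(N, m)` is the largest island with side `≤ n` which contains `g`. -/
def Tp {d : ℕ} {X : Type} [MeasurableSpace X] (a : FreeAct d X) (I : ℕ → Set X) (n : ℕ) (x : X)
    (g : Gd d) (N : ℕ) (m : Gd d) : Prop :=
  Jx a I x N m ∧ Sh 0 N (g - m) ∧ N ≤ n ∧
    ∀ N' m', Jx a I x N' m' → N' ≤ n → Sh 0 N' (g - m') → N' ≤ N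

end GTm
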