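import Pool.Agent.Helper20.GT.Defs

/-!
# GT-6: the fields of cubes of an island system

`kx a I n x g` = the largest island with side `≤ n` which contains `g` (`Tp`).
* `kx_iff`: the largest island is unique (`Isl.nest`: two islands with the same side and a common cell are equal; see `Isl.first_uniq`).
* `kx_fld`: if `g'` is in the island `(N, m)` then a larger island `(N', m')` with `g'` contains `(N, m)` (`Deep`), so it contains `g`.
* `kx_shift`: `Jx a I (T v x) N m ↔ Jx a I x N (m + v)`.
* `kx_big`: all finite boxes are contained in an island (`Isl.cover` and `Isl.nest` along a path: an island containing `g` and an island containing a neighbour `g'` of `g` are equal or one is `Deep` in the other one),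
  and then the largest island with side `≤ n` containing `g` contains it.
-/

set_option autoImplicit false

namespace GTm

open EB NI BM

open Classical in
/-- the field of the largest islands with side `≤ n` -/
noncomputable def kx {d : ℕ} {X : Type} [MeasurableSpace X] (a : FreeAct d X) (I : ℕ → Set X)
    (n : ℕ) (x : X) (g : Gd d) : Option (ℕ × Gd d) :=
  if h : ∃ p : ℕ × Gd d, Tp a I n x g p.1 p.2 then some h.choose else none

variable {d : ℕ} {X : Type} [MeasurableSpace X] (a : FreeAct d X) (I : ℕ → Set X)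

private theorem gt6_common {d : ℕ} {J : ℕ → Gd d → Prop} (hJ : Isl J) {g : Gd d} {N N' : ℕ}
    {m m' : Gd d} (h : J N m) (h' : J N' m') (hs : Sh 0 N (g - m)) (hs' : Sh 0 N' (g - m'))
    (hle : N ≤ N') : (N = N' ∧ m = m') ∨ Deep N m N' m' := by
  rcases hJ.nest N m N' m' h h' hle with h1 | h1 | h1
  · exact Or.inl h1
  · exact Or.inr h1
  · obtain ⟨i, hi⟩ := h1
    have h2 := hs i
    have h3 := hs' i
    simp only [Pi.sub_apply] at h2 h3
    exfalso
    omega

private theorem gt6_same {d : ℕ} {J : ℕ → Gd d → Prop} (hJ : Isl J) {g : Gd d} {N : ℕ}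
    {m m' : Gd d} (h : J N m) (h' : J N m') (hs : Sh 0 N (g - m)) (hs' : Sh 0 N (g - m')) :
    m = m' := by
  rcases gt6_common hJ h h' hs hs' le_rfl with h1 | h1
  · exact h1.2
  · funext i
    have h2 := h1 i
    exfalso
    omega

private theorem gt6_uniq {x : X} (hx : Isl (Jx a I x)) {n : ℕ} {g : Gd d} {N N' : ℕ} {m m' : Gd d}
    (h : Tp a I n x g N m) (h' : Tp a I n x g N' m') : N = N' ∧ m = m' := by
  have hN : N = N' := le_antisymm (h'.2.2.2 N m h.1 h.2.2.1 h.2.1)
    (h.2.2.2 N' m' h'.1 h'.2.2.1 h'.2.1)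
  subst hN
  exact ⟨rfl, gt6_same hx h.1 h'.1 h.2.1 h'.2.1⟩

private theorem gt6_iff {x : X} (hx : Isl (Jx a I x)) (n : ℕ) (g : Gd d) (N : ℕ) (m : Gd d) :
    kx a I n x g = some (N, m) ↔ Tp a I n x g N m := by
  unfold kx
  constructor
  · intro h
    split_ifs at h with h1
    have h2 := h1.choose_spec
    rw [Option.some.inj h] at h2
    exact h2
  · intro h
    have h1 : ∃ p : ℕ × Gd d, Tp a I n x g p.1 p.2 := ⟨(N, m), h⟩
    rw [dif_pos h1]
    obtain ⟨h2, h3⟩ := gt6_uniq a I hx h1.choose_spec h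
    exact congrArg some (Prod.ext h2 h3)

theorem kx_iff (hd : 0 < d) {x : X} (hx : Isl (Jx a I x)) (n : ℕ) (g : Gd d) (N : ℕ) (m : Gd d) :
    kx a I n x g = some (N, m) ↔ Tp a I n x g N m := gt6_iff a I hx n g N m

theorem kx_fld (hd : 0 < d) {x : X} (hx : Isl (Jx a I x)) (n : ℕ) : Fld (kx a I n x) where
  mem := fun g N m h => ((gt6_iff a I hx n g N m).1 h).2.1
  cst := by
    intro g N m h g' hg'
    have h1 := (gt6_iff a I hx n g N m).1 h
    refine (gt6_iff a I hx n g' N m).2 ⟨h1.1, hg', h1.2.2.1, ?_⟩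
    intro N' m' h2 h3 h4
    rcases Nat.le_total N N' with h5 | h5
    · rcases gt6_common hx h1.1 h2 hg' h4 h5 with h6 | h6
      · exact h6.1.ge
      · refine h1.2.2.2 N' m' h2 h3 ?_
        intro i
        have h7 := h6 i
        have h8 := h1.2.1 i
        simp only [Pi.sub_apply] at h8 ⊢
        omega
    · exact h5

private theorem gt6_jx (x : X) (v : Gd d) (N : ℕ) (m : Gd d) :
    Jx a I (a.T v x) N m ↔ Jx a I x N (m + v) := by
  unfold Jx
  rw [a.add]

private theorem gt6_isl {x : X} (hx : Isl (Jx a I x)) (v : Gd d) : Isl (Jx a I (a.T v x)) where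
  nest := by
    intro N m N' m' h h' hle
    rw [gt6_jx] at h h'
    rcases hx.nest N (m + v) N' (m' + v) h h' hle with h1 | h1 | h1
    · exact Or.inl ⟨h1.1, add_right_cancel h1.2⟩
    · refine Or.inr (Or.inl fun i => ?_)
      have h2 := h1 i
      simp only [Pi.add_apply] at h2
      omega
    · obtain ⟨i, hi⟩ := h1
      refine Or.inr (Or.inr ⟨i, ?_⟩)
      simp only [Pi.add_apply] at hi
      omega
  cover := by
    intro g
    obtain ⟨N, m, h1, h2⟩ := hx.cover (g + v)
    refine ⟨N, m - v, ?_, ?_⟩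
    · rw [gt6_jx, sub_add_cancel]
      exact h1
    · have e : g - (m - v) = g + v - m := by abel
      rw [e]
      exact h2

private theorem gt6_tp (n : ℕ) (x : X) (v g : Gd d) (N : ℕ) (m : Gd d) :
    Tp a I n (a.T v x) g N m ↔ Tp a I n x (g + v) N (m + v) := by
  unfold Tp
  have e : g - m = g + v - (m + v) := by abel
  rw [gt6_jx, ← e]
  refine and_congr_right fun _ => and_congr_right fun _ => and_congr_right fun _ => ?_
  constructor
  · intro h N' m' h1 h2 h3
    refine h N' (m' - v) ?_ h2 ?_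
    · rw [gt6_jx, sub_add_cancel]
      exact h1
    · have e : g - (m' - v) = g + v - m' := by abel
      rw [e]
      exact h3
  · intro h N' m' h1 h2 h3
    refine h N' (m' + v) ?_ h2 ?_
    · rw [gt6_jx] at h1
      exact h1
    · have e : g + v - (m' + v) = g - m' := by abel
      rw [e]
      exact h3

theorem kx_shift (hd : 0 < d) {x : X} (hx : Isl (Jx a I x)) (n : ℕ) (v g : Gd d) :
    kx a I n (a.T v x) g = (kx a I n x (g + v)).map fun p => (p.1, p.2 - v) := by
  have hv := gt6_isl a I hx v
  rcases h : kx a I n x (g + v) with _ | ⟨N, m⟩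
  · rw [Option.map_none]
    rcases h' : kx a I n (a.T v x) g with _ | ⟨N, m⟩
    · rfl
    · exfalso
      have h1 := (gt6_iff a I hv n g N m).1 h'
      rw [gt6_tp] at h1
      rw [(gt6_iff a I hx n (g + v) N (m + v)).2 h1] at h
      cases h
  · rw [Option.map_some]
    refine (gt6_iff a I hv n g N (m - v)).2 ?_
    rw [gt6_tp, sub_add_cancel]
    exact (gt6_iff a I hx n (g + v) N m).1 h

private theorem gt6_ms (hI : ∀ N, MeasurableSet (I N)) (n : ℕ) (g : Gd d) (N : ℕ) (m : Gd d) :
    MeasurableSet {x | Tp a I n x g N m} := by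
  have h1 : ∀ N m, MeasurableSet {x | Jx a I x N m} := fun N m => a.meas m (hI N)
  have h2 : {x | Tp a I n x g N m} = {x | Jx a I x N m} ∩ ({_x | Sh 0 N (g - m)} ∩
      ({_x | N ≤ n} ∩ ⋂ N', ⋂ m', ({x | Jx a I x N' m'}ᶜ ∪
        {_x | N' ≤ n → Sh 0 N' (g - m') → N' ≤ N}))) := by
    ext x
    simp only [Set.mem_ofPred_eq, Set.mem_inter_iff, Set.mem_iInter, Set.mem_union,
      Set.mem_compl_iff]
    unfold Tp
    refine and_congr_right fun _ => and_congr_right fun _ => and_congr_right fun _ => ?_
    constructor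
    · intro q N' m'
      by_cases q' : Jx a I x N' m'
      · exact Or.inr (q N' m' q')
      · exact Or.inl q'
    · intro q N' m' q1
      rcases q N' m' with q2 | q2
      · exact absurd q1 q2
      · exact q2
  rw [h2]
  refine (h1 N m).inter (MeasurableSet.inter (MeasurableSet.const _)
    (MeasurableSet.inter (MeasurableSet.const _) ?_))
  exact MeasurableSet.iInter fun N' => MeasurableSet.iInter fun m' =>
    (h1 N' m').compl.union (MeasurableSet.const _)

theorem kx_ms (hd : 0 < d) (hI : ∀ N, MeasurableSet (I N)) (C : Set X)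
    (hC : ∀ x ∈ C, Isl (Jx a I x)) (n : ℕ) (g : Gd d) : Ms fun x : C => kx a I n x.1 g := by
  have hs : ∀ (N : ℕ) (m : Gd d), MeasurableSet {x : C | kx a I n x.1 g = some (N, m)} := by
    intro N m
    have e : {x : C | kx a I n x.1 g = some (N, m)} =
        Subtype.val ⁻¹' {x | Tp a I n x g N m} := by
      ext x
      simp only [Set.mem_ofPred_eq, Set.mem_preimage]
      exact gt6_iff a I (hC x.1 x.2) n g N m
    rw [e]
    exact measurable_subtype_coe (gt6_ms a I hI n g N m)
  intro s
  rcases s with _ | ⟨N, m⟩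
  · have e : {x : C | kx a I n x.1 g = none} =
        (⋃ N : ℕ, ⋃ m : Gd d, {x : C | kx a I n x.1 g = some (N, m)})ᶜ := by
      ext x
      simp only [Set.mem_ofPred_eq, Set.mem_compl_iff, Set.mem_iUnion, not_exists]
      constructor
      · intro h N m h1
        rw [h] at h1
        cases h1
      · intro h
        rcases h' : kx a I n x.1 g with _ | ⟨N, m⟩
        · rfl
        · exact absurd h' (h N m)
    rw [e]
    exact (MeasurableSet.iUnion fun N => MeasurableSet.iUnion fun m => hs N m).compl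
  · exact hs N m

private theorem gt6_deep (hd : 0 < d) {J : ℕ → Gd d → Prop} (hJ : Isl J) (g : Gd d) (R : ℕ) :
    ∃ N m, J N m ∧ Sh R N (g - m) := by
  induction R with
  | zero => exact hJ.cover g
  | succ R ih =>
    obtain ⟨N, m, h1, h2⟩ := ih
    set k : Fin d := ⟨0, hd⟩ with hk
    obtain ⟨N', m', h3, h4⟩ := hJ.cover (m - un k)
    have hN : 0 < N := by
      have := h2 k
      omega
    have hg' : ∀ i, m i - 1 ≤ (m - un k) i ∧ (m - un k) i ≤ m i := by
      intro i
      by_cases hi : i = k
      · subst hi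
        simp [un]
      · simp [un, hi]
    have hk' : (m - un k) k = m k - 1 := by simp [un]
    have hnA : ¬ Apart N m N' m' := by
      rintro ⟨i, hi⟩
      have h5 := h4 i
      have h6 := hg' i
      rw [Pi.sub_apply] at h5
      omega
    have hnA' : ¬ Apart N' m' N m := by
      rintro ⟨i, hi⟩
      exact hnA ⟨i, hi.symm⟩
    have hne : ¬ (N = N' ∧ m = m') := by
      rintro ⟨rfl, rfl⟩
      have h5 := h4 k
      rw [Pi.sub_apply, hk'] at h5
      omega
    rcases Nat.le_total N N' with hle | hle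
    · rcases hJ.nest N m N' m' h1 h3 hle with h5 | h5 | h5
      · exact absurd h5 hne
      · refine ⟨N', m', h3, fun i => ?_⟩
        have h6 := h5 i
        have h7 := h2 i
        simp only [Pi.sub_apply] at h7 ⊢
        push_cast
        omega
      · exact absurd h5 hnA
    · rcases hJ.nest N' m' N m h3 h1 hle with h5 | h5 | h5
      · exact absurd ⟨h5.1.symm, h5.2.symm⟩ hne
      · exfalso
        have h6 := h5 k
        have h7 := h4 k
        rw [Pi.sub_apply, hk'] at h7
        omega
      · exact absurd h5 hnA'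

theorem kx_big (hd : 0 < d) {x : X} (hx : Isl (Jx a I x)) (R : ℕ) (g : Gd d) :
    ∃ n0 : ℕ, ∀ n, n0 ≤ n → ∃ N m, kx a I n x g = some (N, m) ∧ Sh R N (g - m) := by
  classical
  obtain ⟨N0, m0, h1, h2⟩ := gt6_deep hd hx g R
  have h20 : Sh 0 N0 (g - m0) := fun i => by
    have := h2 i
    omega
  refine ⟨N0, fun n hn => ?_⟩
  have hP : ∃ m, Jx a I x N0 m ∧ Sh 0 N0 (g - m) := ⟨m0, h1, h20⟩
  set M := Nat.findGreatest (fun N => ∃ m, Jx a I x N m ∧ Sh 0 N (g - m)) n with hM
  obtain ⟨m, h3, h4⟩ : ∃ m, Jx a I x M m ∧ Sh 0 M (g - m) :=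
    Nat.findGreatest_spec (P := fun N => ∃ m, Jx a I x N m ∧ Sh 0 N (g - m)) hn hP
  have hNM : N0 ≤ M := Nat.le_findGreatest hn hP
  refine ⟨M, m, (gt6_iff a I hx n g M m).2 ⟨h3, h4, Nat.findGreatest_le n, ?_⟩, ?_⟩
  · intro N' m' h5 h6 h7
    exact Nat.le_findGreatest h6 ⟨m', h5, h7⟩
  · rcases gt6_common hx h1 h3 h20 h4 hNM with h5 | h5
    · rw [← h5.1, ← h5.2]
      exact h2
    · intro i
      have h6 := h5 i
      have h7 := h2 i
      simp only [Pi.sub_apply] at h7 ⊢
      omega

end GTm
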