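import Pool.Agent.Helper20.GT.Defs
import Pool.Agent.Helper27.EB.Mix2C

/-!
# GT-4a: the height class is not generically constant

If `(F x).1 = a` for residually many `x`, then (`resid_inv` for all `g`, edge rule) `(F (sh (un i) x)).2 ≠ (F x).2` for residually many `x`, so `(F (sh (t • un i) x)).2 = (F x).2` for even `t`.
`mix2_resid` for `fun x => (F x).2` and `g = (2 (M + 1)) • un i`: one of the two values is frequent, then the other one too (shift by `un i`: `resid_inv`), and then `∃ᶠ x, (F x).2 = true ∧ (F (sh g x)).2 = false`: contradiction.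
-/

set_option autoImplicit false

namespace GTm

open EB NI BM

theorem not_const {d : ℕ} (i : Fin d) {F : Om d → Lab} (hF : Ms F)
    (hres : ∀ᶠ x in residual (Om d), ∀ g, Loc (fun h => F (sh h x)) g) (a : ZMod 3) :
    ¬ ∀ᶠ x in residual (Om d), (F x).1 = a := by
  intro hc
  have hne : (residual (Om d)).NeBot := by
    refine Filter.neBot_iff.2 fun h => ?_
    have h1 : Dense (∅ : Set (Om d)) := dense_of_mem_residual (by rw [h]; trivial)
    exact h1.nonempty.ne_empty rfl
  -- the second component flips along `un i`
  have hflip : ∀ᶠ x in residual (Om d), (F (sh (un i) x)).2 ≠ (F x).2 := by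
    have h1 : ∀ᶠ x in residual (Om d), (F (sh (un i) x)).1 = a := resid_inv d (un i) _ hc
    filter_upwards [hc, h1, hres] with x hx1 hx2 hx3
    have h2 := (hx3 0).edge (un i) ⟨i, Or.inl rfl⟩
    rw [zero_add, sh_zero] at h2
    exact fun h => h2 (hx1.trans hx2.symm) h.symm
  have hall : ∀ᶠ x in residual (Om d), ∀ g : Gd d, (F (sh (un i) (sh g x))).2 ≠ (F (sh g x)).2 :=
    eventually_countable_forall.2 fun g => resid_inv d g _ hflip
  have heven : ∀ᶠ x in residual (Om d), ∀ n : ℕ, (F (sh ((2 * n) • un i) x)).2 = (F x).2 := by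
    filter_upwards [hall] with x hx n
    induction n with
    | zero => simp [sh_zero]
    | succ n ih =>
      have e1 : (2 * (n + 1)) • (un i : Gd d) = un i + (un i + (2 * n) • un i) := by
        rw [show 2 * (n + 1) = 2 * n + 1 + 1 by ring, succ_nsmul', succ_nsmul']
      have h1 := hx ((2 * n) • un i)
      have h2 := hx (un i + (2 * n) • un i)
      rw [e1, sh_add]
      rw [sh_add (un i) ((2 * n) • un i)] at h2 ⊢
      rw [← ih]
      revert h1 h2
      generalize (F (sh (un i) (sh (un i) (sh ((2 * n) • un i) x)))).2 = b1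
      generalize (F (sh (un i) (sh ((2 * n) • un i) x))).2 = b2
      generalize (F (sh ((2 * n) • un i) x)).2 = b3
      revert b1 b2 b3
      decide
  -- the second component is measurable
  have hG : Ms (fun x => (F x).2) := by
    intro s
    have h1 : {x | (F x).2 = s} = ⋃ c : ZMod 3, {x | F x = (c, s)} := by
      ext x
      simp only [Set.mem_ofPred_eq, Set.mem_iUnion]
      constructor
      · intro h
        exact ⟨(F x).1, Prod.ext rfl h⟩
      · rintro ⟨c, hc⟩
        rw [hc]
    rw [h1]
    exact MeasurableSet.iUnion fun c => hF (c, s)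
  obtain ⟨M, hM⟩ := mix2_resid d (fun x => (F x).2) hG
  -- both values are frequent
  have hfr : ∀ s : Bool, ∃ᶠ x in residual (Om d), (F x).2 = s := by
    intro s hs
    have h1 : ∀ᶠ x in residual (Om d), ¬ (F (sh (un i) x)).2 = s := resid_inv d (un i) _ hs
    obtain ⟨x, hx1, hx2, hx3⟩ := (hs.and (h1.and hflip)).exists
    have hx4 : ¬ (F x).2 = s := hx1
    clear hx1 hs h1
    revert hx4 hx2 hx3
    generalize (F (sh (un i) x)).2 = b1
    generalize (F x).2 = b2
    revert s b1 b2
    decide
  have hg : ¬ nb M ((2 * (M + 1)) • (un i : Gd d)) := by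
    intro h
    have h1 := h i
    simp [un] at h1
    rw [abs_of_nonneg (by positivity)] at h1
    linarith
  obtain ⟨x, hx, hx2⟩ :=
    ((hM true false _ hg (hfr true) (hfr false)).and_eventually heven).exists
  have h3 := hx2 (M + 1)
  rw [hx.2, hx.1] at h3
  exact absurd h3 (by decide)

end GTm
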