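import Pool.Agent.Helper20.GT.Plane
import Pool.Agent.Helper20.GT.Blk
import Pool.Agent.Helper20.GT.NotC
import Pool.Agent.Helper20.GT.Dec
import Pool.Agent.Helper20.BM.Fin

/-!
# GT-4: no Baire-measurable solution

`BM.ext_sol` gives `F` on `Om d`; the image of the comeagre set is comeagre (`resid_sub`), `loc_iff`.  `(F x).1` takes two values frequently (finitely many values, `not_const`), `exists_blocked`; the
restriction to the plane (`u • un i0 + v • un i1`, see `NI.no_conf'`) contradicts `no_blocked`.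
-/

set_option autoImplicit false

namespace GTm

open EB NI BM

theorem nb_un {d : ℕ} {s : ℤ} (hs : NIC.Sg s) (i : Fin d) : Un (s • un i : Gd d) := by
  rcases hs with hs | hs <;> subst hs
  · exact ⟨i, Or.inl (one_smul _ _)⟩
  · exact ⟨i, Or.inr (by rw [neg_smul, one_smul])⟩

theorem nb_ne {d : ℕ} {i0 i1 : Fin d} (h01 : i0 ≠ i1) {s t : ℤ} (ht : NIC.Sg t) :
    (t • un i1 : Gd d) ≠ s • un i0 := by
  intro e
  have h1 := congrFun e i1
  rw [Pi.smul_apply, Pi.smul_apply, un_self, un_off h01.symm, smul_eq_mul, smul_eq_mul] at h1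
  rcases ht with ht | ht <;> subst ht <;> simp at h1

theorem nb_ne' {d : ℕ} {i0 i1 : Fin d} (h01 : i0 ≠ i1) {s t : ℤ} (ht : NIC.Sg t) :
    (t • un i1 : Gd d) ≠ -(s • un i0) := by
  rw [← neg_smul]
  exact nb_ne h01 ht

/-- the restriction to a plane -/
theorem nb_plane {d : ℕ} {i0 i1 : Fin d} (h01 : i0 ≠ i1) (y : Gd d → Lab)
    (h : ∀ g, Loc y g) :
    NIC.PConf (fun u v => (y (u • un i0 + v • un i1)).1) (fun u v => (y (u • un i0 + v • un i1)).2) ∧
      PT2 fun u v => (y (u • un i0 + v • un i1)).1 := by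
  obtain ⟨P, hP⟩ : ∃ P : ℤ → ℤ → Gd d, ∀ u v, P u v = u • un i0 + v • un i1 :=
    ⟨fun u v => u • un i0 + v • un i1, fun _ _ => rfl⟩
  simp only [← hP]
  have px : ∀ u v s, P (u + s) v = P u v + s • un i0 := fun u v s => by
    simp only [hP, add_smul]
    abel
  have py : ∀ u v s, P u (v + s) = P u v + s • un i1 := fun u v s => by
    simp only [hP, add_smul]
    abel
  have s1 : NIC.Sg 1 := Or.inl rfl
  refine ⟨⟨fun u v => ?_, fun u v e => ?_, fun u v e => ?_⟩, fun u v s t hs ht e1 e2 => ?_⟩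
  · have := (h (P u v)).quad ((1 : ℤ) • un i0) ((1 : ℤ) • un i1) (nb_un s1 _) (nb_un s1 _)
      (nb_ne h01 s1) (nb_ne' h01 s1)
    rw [quad_iff_face, ← px, ← py, ← py] at this
    exact this
  · have := (h (P u v)).edge ((1 : ℤ) • un i0) (nb_un s1 _)
    rw [← px] at this
    exact (this e.symm).symm
  · have := (h (P u v)).edge ((1 : ℤ) • un i1) (nb_un s1 _)
    rw [← py] at this
    exact (this e.symm).symm
  · have := (h (P u v)).t2 (s • un i0) (t • un i1) (nb_un hs _) (nb_un ht _)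
      (nb_ne h01 ht) (nb_ne' h01 ht)
    rw [← px, ← py, ← px, ← py] at this
    exact this e1 e2

theorem nb_bot (d : ℕ) : (residual (Om d)).NeBot := by
  refine ⟨fun h => ?_⟩
  have h1 : (∅ : Set (Om d)) ∈ residual (Om d) := by
    rw [h]
    exact Filter.mem_bot
  exact (dense_of_mem_residual h1).nonempty.ne_empty rfl

theorem no_baire (d : ℕ) (hd : 2 ≤ d) : ¬ BaireSol d lclG := by
  rintro ⟨C, hC, hCi, hC0, hS⟩
  obtain ⟨F, hF, hA⟩ := ext_sol (((0 : ZMod 3), false) : Lab) lclG C hC hCi hS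
  have hCr := resid_sub d C hC0
  have hres : ∀ᶠ x in residual (Om d), ∀ g, Loc (fun h => F (sh h x)) g := by
    refine Filter.mem_of_superset hCr ?_
    rintro _ ⟨x, hx, rfl⟩ g
    rw [loc_iff]
    have h1 := hA (sh g x.1) ⟨(fshift d).T g x, hCi g x hx, rfl⟩
    have h2 : (fun b : ball (grid d) lclG.r 0 => F (sh b.1 (sh g x.1))) =
        fun b : ball (grid d) lclG.r 0 => F (sh (b.1 + g) x.1) := by
      funext b
      rw [sh_add]
    rw [h2] at h1
    exact h1
  have hne := nb_bot d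
  -- some value is frequent
  obtain ⟨a, ha⟩ : ∃ a : ZMod 3, ∃ᶠ x in residual (Om d), (F x).1 = a := by
    by_contra hc
    push Not at hc
    have h1 : ∀ᶠ x in residual (Om d), ∀ a : ZMod 3, ¬ (F x).1 = a :=
      Filter.eventually_all.2 fun a => hc a
    obtain ⟨x, hx⟩ := h1.exists
    exact hx _ rfl
  -- and another one
  have i0 : Fin d := ⟨0, by omega⟩
  obtain ⟨a', haa, ha'⟩ : ∃ a' : ZMod 3, a ≠ a' ∧ ∃ᶠ x in residual (Om d), (F x).1 = a' := by
    by_contra hc
    push Not at hc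
    refine not_const i0 hF hres a ?_
    have h1 : ∀ᶠ x in residual (Om d), ∀ a' : ZMod 3, a ≠ a' → ¬ (F x).1 = a' :=
      Filter.eventually_all.2 fun a' => by
        by_cases h : a = a'
        · exact Filter.Eventually.of_forall fun x h' => absurd h h'
        · exact (hc a' h).mono fun x hx _ => hx
    filter_upwards [h1] with x hx
    by_contra h
    exact hx (F x).1 (fun h' => h h'.symm) rfl
  have h01 : (⟨0, by omega⟩ : Fin d) ≠ ⟨1, by omega⟩ := by
    intro e
    have := congrArg Fin.val e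
    simp at this
  obtain ⟨y, L, hy, hx1, hx2⟩ := exists_blocked h01 hF hres haa ha ha'
  obtain ⟨hP, hT⟩ := nb_plane h01 y hy
  exact no_blocked hP hT L hx1 hx2

end GTm
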