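import Pool.Agent.Helper20.GT.Meas
import Pool.Agent.Helper20.GT.NoB

/-!
# GT: the theorem
-/

set_option autoImplicit false

namespace GTm

open EB NI BM MeasureTheory

theorem baire_of_borel {d : ℕ} {S : Type} (L : LCL S) (h : BorelSol (fshift d) L) : BaireSol d L :=
  ⟨Set.univ, MeasurableSet.univ, fun _ _ _ => trivial, Filter.univ_mem, solOn_univ L h⟩

theorem main (d : ℕ) (hd : 2 ≤ d) :
    MeasSol d lclG ∧ BernSol d lclG ∧ ¬ BaireSol d lclG ∧ ¬ BorelSol (fshift d) lclG :=
  ⟨meas_solG d (by omega), bern_of_meas _ (meas_solG d (by omega)), no_baire d hd,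
    fun h => no_baire d hd (baire_of_borel _ h)⟩

end GTm
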