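import Pool.Agent.Helper20.GT.Off
import Pool.Agent.Helper20.GT.Field

/-!
# GT-7b: the parameters

* `exists_n`: the sets `B n = {x : C | ¬ ∃ N m, kx n x 0 = some (N, m) ∧ Sh R N (0 - m)}` (measurable by `kx_ms`): by `kx_big` each `x ∈ C` is in only finitely many, so `μ (⋃ k ≥ n, B k) → 0`.
* `exists_par`: `s i = d (2 ρ_i) 2 ^ i + 1` (or similar), `ρ_i = rho d i`; `R i = max (s (i + 1)) (max ρ_i 3)`; `n i` from `exists_n` with `ε = 2⁻¹ ^ i`; `o i k` from `exists_off` for `E j = {x : C | kx (n i) x 0 = some (N, m), 0 - m k = j}`;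
  Borel-Cantelli (`ae_eventually_notMem`).
-/

set_option autoImplicit false

namespace GTm

open EB NI BM MeasureTheory

variable {d : ℕ} {X : Type} [MeasurableSpace X] (a : FreeAct d X) (I : ℕ → Set X)

theorem meas_kx (hd : 0 < d) (hI : ∀ N, MeasurableSet (I N))
    (C : Set X) (hCm : MeasurableSet C) (hC : ∀ x ∈ C, Isl (Jx a I x)) (n : ℕ)
    (E : Set (Option (ℕ × Gd d))) : MeasurableSet {x | x ∈ C ∧ kx a I n x 0 ∈ E} := by
  have h := hCm.subtype_image ((kx_ms a I hd hI C hC n 0).set E)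
  convert h using 1
  ext x
  simp only [Set.mem_ofPred_eq, Set.mem_image, Subtype.exists, exists_and_left, exists_prop]
  constructor
  · rintro ⟨h1, h2⟩
    exact ⟨x, h2, h1, rfl⟩
  · rintro ⟨y, h2, h1, rfl⟩
    exact ⟨h1, h2⟩

theorem exists_n (hd : 0 < d) (μ : Measure X) [IsFiniteMeasure μ] (hI : ∀ N, MeasurableSet (I N))
    (C : Set X) (hCm : MeasurableSet C) (hC : ∀ x ∈ C, Isl (Jx a I x)) (R : ℕ) (ε : ENNReal)
    (hε : ε ≠ 0) :
    ∃ n, μ {x | x ∈ C ∧ ¬ ∃ N m, kx a I n x 0 = some (N, m) ∧ Sh R N (0 - m)} ≤ ε := by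
  obtain ⟨B, hB⟩ : ∃ B : ℕ → Set X, ∀ n, B n =
      {x | x ∈ C ∧ ¬ ∃ N m, kx a I n x 0 = some (N, m) ∧ Sh R N (0 - m)} := ⟨_, fun _ => rfl⟩
  have hBm : ∀ n, MeasurableSet (B n) := fun n => by
    rw [hB]
    exact meas_kx a I hd hI C hCm hC n {q | ¬ ∃ N m, q = some (N, m) ∧ Sh R N (0 - m)}
  obtain ⟨U, hU⟩ : ∃ U : ℕ → Set X, ∀ n, U n = ⋃ k, B (n + k) := ⟨_, fun _ => rfl⟩
  have hUm : ∀ n, MeasurableSet (U n) := fun n => by
    rw [hU]
    exact MeasurableSet.iUnion fun k => hBm _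
  have hanti : Antitone U := by
    refine antitone_nat_of_succ_le fun n => ?_
    rw [hU, hU]
    refine Set.iUnion_subset fun k => ?_
    have : n + 1 + k = n + (k + 1) := by omega
    rw [this]
    exact Set.subset_iUnion (fun k => B (n + k)) (k + 1)
  have hempty : ⋂ n, U n = ∅ := by
    rw [Set.eq_empty_iff_forall_notMem]
    intro x hx
    rw [Set.mem_iInter] at hx
    have hxC : x ∈ C := by
      have := hx 0
      rw [hU, Set.mem_iUnion] at this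
      obtain ⟨k, hk⟩ := this
      rw [hB] at hk
      exact hk.1
    obtain ⟨n0, hn0⟩ := kx_big a I hd (hC x hxC) R 0
    have := hx n0
    rw [hU, Set.mem_iUnion] at this
    obtain ⟨k, hk⟩ := this
    rw [hB] at hk
    exact hk.2 (hn0 _ (Nat.le_add_right _ _))
  have hlim := tendsto_measure_iInter_atTop (μ := μ) (s := U)
    (fun n => (hUm n).nullMeasurableSet) hanti ⟨0, measure_ne_top μ _⟩
  rw [hempty, measure_empty] at hlim
  obtain ⟨n, hn⟩ := ((tendsto_order.1 hlim).2 ε (pos_iff_ne_zero.2 hε)).exists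
  refine ⟨n, ?_⟩
  rw [← hB]
  refine le_trans (measure_mono ?_) (le_of_lt hn)
  rw [hU]
  exact Set.subset_iUnion (fun k => B (n + k)) 0

theorem sh_mono {r r' : ℤ} {N : ℕ} {p : Gd d} (h : Sh r N p) (hr : r' ≤ r) : Sh r' N p := fun i => by
  have := h i
  constructor <;> omega

theorem exists_par (hd : 0 < d) (μ : Measure X) [IsFiniteMeasure μ] (hI : ∀ N, MeasurableSet (I N))
    (C : Set X) (hCm : MeasurableSet C) (hC : ∀ x ∈ C, Isl (Jx a I x)) :
    ∃ (n s : ℕ → ℕ) (o : ℕ → Fin d → ℤ), (∀ i, 0 < s i) ∧ ∀ᵐ x ∂μ, x ∈ C →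
      ∀ᶠ i in Filter.atTop, Trans (fun i => kx a I (n i) x) s o i 0 ∧
        ∃ N m, kx a I (n i) x 0 = some (N, m) ∧ Sh 2 N (0 - m) := by
  obtain ⟨s, hs⟩ : ∃ s : ℕ → ℕ, ∀ i, s i = d * (2 * rho d i) * 2 ^ i + 1 := ⟨_, fun _ => rfl⟩
  have hs0 : ∀ i, 0 < s i := fun i => by
    rw [hs]
    omega
  obtain ⟨R, hR⟩ : ∃ R : ℕ → ℕ, ∀ i, R i = max (s (i + 1)) (rho d i) := ⟨_, fun _ => rfl⟩
  have hhalf : ∀ i : ℕ, (2⁻¹ : ENNReal) ^ i ≠ 0 := fun i => by
    simp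
  choose n hn using fun i : ℕ => exists_n a I hd μ hI C hCm hC (R i) ((2⁻¹ : ENNReal) ^ i) (hhalf i)
  obtain ⟨E, hE⟩ : ∃ E : ℕ → Fin d → ℤ → Set X, ∀ i k j, E i k j =
      {x | x ∈ C ∧ kx a I (n i) x 0 ∈ {q : Option (ℕ × Gd d) | ∃ N m, q = some (N, m) ∧
        (0 : Gd d) k - m k = j}} := ⟨_, fun _ _ _ => rfl⟩
  have hEm : ∀ i k j, MeasurableSet (E i k j) := fun i k j => by
    rw [hE]
    exact meas_kx a I hd hI C hCm hC _ _
  have hEd : ∀ i k j j', j ≠ j' → Disjoint (E i k j) (E i k j') := by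
    intro i k j j' hj
    rw [Set.disjoint_left]
    intro x hx hx'
    rw [hE] at hx hx'
    obtain ⟨-, N, m, h1, h2⟩ := hx
    obtain ⟨-, N', m', h1', h2'⟩ := hx'
    rw [h1] at h1'
    simp only [Option.some.injEq, Prod.mk.injEq] at h1'
    apply hj
    rw [← h2, ← h2', h1'.2]
  choose o ho using fun (i : ℕ) (k : Fin d) =>
    exists_off μ (E i k) (hEm i k) (hEd i k) (s i) (rho d i) (hs0 i)
  refine ⟨n, s, o, hs0, ?_⟩
  obtain ⟨A, hA⟩ : ∃ A : ℕ → Set X, ∀ i, A i =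
      {x | x ∈ C ∧ ¬ ∃ N m, kx a I (n i) x 0 = some (N, m) ∧ Sh (R i) N (0 - m)} :=
    ⟨_, fun _ => rfl⟩
  obtain ⟨D, hD⟩ : ∃ D : ℕ → Set X, ∀ i, D i = ⋃ k : Fin d,
      {x | ∃ j, wd (s i) (o i k) j < (rho d i : ℕ) ∧ x ∈ E i k j} := ⟨_, fun _ => rfl⟩
  have hμA : ∀ i, μ (A i) ≤ (2⁻¹ : ENNReal) ^ i := fun i => by
    rw [hA]
    exact hn i
  have hμD1 : ∀ i k, μ {x | ∃ j, wd (s i) (o i k) j < (rho d i : ℕ) ∧ x ∈ E i k j} ≤
      (s i : ENNReal)⁻¹ * (2 * rho d i * μ Set.univ) := by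
    intro i k
    have h1 := ho i k
    have h2 : (s i : ENNReal) ≠ 0 := by
      have := hs0 i
      simp only [ne_eq, Nat.cast_eq_zero]
      omega
    have h3 : (s i : ENNReal) ≠ ⊤ := ENNReal.natCast_ne_top _
    calc μ {x | ∃ j, wd (s i) (o i k) j < (rho d i : ℕ) ∧ x ∈ E i k j}
        = (s i : ENNReal)⁻¹ * ((s i : ENNReal) *
          μ {x | ∃ j, wd (s i) (o i k) j < (rho d i : ℕ) ∧ x ∈ E i k j}) := by
          rw [← mul_assoc, ENNReal.inv_mul_cancel h2 h3, one_mul]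
      _ ≤ (s i : ENNReal)⁻¹ * (2 * rho d i * μ Set.univ) := by gcongr
  have hμD : ∀ i, μ (D i) ≤ (2⁻¹ : ENNReal) ^ i * μ Set.univ := by
    intro i
    rw [hD]
    refine (measure_iUnion_le _).trans ?_
    rw [tsum_fintype]
    refine (Finset.sum_le_sum fun k _ => hμD1 i k).trans ?_
    rw [Finset.sum_const, Finset.card_univ, Fintype.card_fin, nsmul_eq_mul]
    have h2 : (s i : ENNReal) ≠ 0 := by
      have := hs0 i
      simp only [ne_eq, Nat.cast_eq_zero]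
      omega
    have h3 : (s i : ENNReal) ≠ ⊤ := ENNReal.natCast_ne_top _
    have h4 : (d : ENNReal) * (2 * rho d i) * 2 ^ i ≤ (s i : ENNReal) := by
      rw [hs]
      push_cast
      exact le_self_add
    calc (d : ENNReal) * ((s i : ENNReal)⁻¹ * (2 * rho d i * μ Set.univ))
        = (s i : ENNReal)⁻¹ * ((d : ENNReal) * (2 * rho d i)) * μ Set.univ := by ring
      _ ≤ (2⁻¹ : ENNReal) ^ i * μ Set.univ := by
          gcongr
          rw [mul_comm, ← div_eq_mul_inv]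
          refine ENNReal.div_le_of_le_mul ?_
          have h5 : (2⁻¹ : ENNReal) ^ i * 2 ^ i = 1 := by
            rw [← mul_pow, ENNReal.inv_mul_cancel (by norm_num) (by norm_num), one_pow]
          calc (d : ENNReal) * (2 * rho d i) = (2⁻¹ : ENNReal) ^ i * 2 ^ i *
                ((d : ENNReal) * (2 * rho d i)) := by rw [h5, one_mul]
            _ = (2⁻¹ : ENNReal) ^ i * ((d : ENNReal) * (2 * rho d i) * 2 ^ i) := by ring
            _ ≤ (2⁻¹ : ENNReal) ^ i * s i := by gcongr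
  have hgeo : ∑' i : ℕ, (2⁻¹ : ENNReal) ^ i ≠ ⊤ := by
    rw [ENNReal.tsum_geometric]
    simp
  have hsA : ∑' i, μ (A i) ≠ ⊤ := ne_top_of_le_ne_top hgeo (ENNReal.tsum_le_tsum hμA)
  have hsD : ∑' i, μ (D i) ≠ ⊤ := by
    refine ne_top_of_le_ne_top ?_ (ENNReal.tsum_le_tsum hμD)
    rw [ENNReal.tsum_mul_right]
    exact ENNReal.mul_ne_top hgeo (measure_ne_top μ _)
  filter_upwards [ae_eventually_notMem hsA, ae_eventually_notMem hsD] with x hxA hxD hxC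
  have hxA' := (Filter.tendsto_add_atTop_nat 1).eventually hxA
  have hxD' := (Filter.tendsto_add_atTop_nat 1).eventually hxD
  filter_upwards [hxA, hxA', hxD'] with i h1 h2 h3
  rw [hA] at h1 h2
  have h1' : ∃ N m, kx a I (n i) x 0 = some (N, m) ∧ Sh (R i) N (0 - m) := by
    by_contra hc
    exact h1 ⟨hxC, hc⟩
  have h2' : ∃ N m, kx a I (n (i + 1)) x 0 = some (N, m) ∧ Sh (R (i + 1)) N (0 - m) := by
    by_contra hc
    exact h2 ⟨hxC, hc⟩
  obtain ⟨N, m, e1, e2⟩ := h1'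
  obtain ⟨N', m', e1', e2'⟩ := h2'
  have hr1 : ((s (i + 1) : ℕ) : ℤ) ≤ (R i : ℤ) := by
    rw [hR]
    exact_mod_cast le_max_left _ _
  have hr2 : ((rho d (i + 1) : ℕ) : ℤ) ≤ (R (i + 1) : ℤ) := by
    rw [hR]
    exact_mod_cast le_max_right _ _
  have hr3 : (2 : ℤ) ≤ (R i : ℤ) := by
    have h5 : 2 ≤ rho d i := by unfold rho; omega
    have h6 : rho d i ≤ R i := by
      rw [hR]
      exact le_max_right _ _
    exact_mod_cast h5.trans h6
  refine ⟨⟨N, m, N', m', e1, e1', sh_mono e2 hr1, sh_mono e2' hr2, fun k => ?_⟩, N, m, e1, sh_mono e2 hr3⟩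
  by_contra hc
  push Not at hc
  apply h3
  rw [hD, Set.mem_iUnion]
  refine ⟨k, (0 : Gd d) k - m' k, hc, ?_⟩
  rw [hE]
  exact ⟨hxC, N', m', e1', rfl⟩

end GTm
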