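import Pool.Agent.Helper20.GT.Stage
import Pool.Agent.Helper20.GT.Par
import Pool.Agent.Helper20.GT.Dec
import Pool.Agent.Helper33.NI.Meas

/-!
# GT-7: the measurable solution

As in `NI.meas_sol`: `μ'` from `quasi`, an invariant measurable set `C0` with `μ' C0ᶜ = 0` and sets `I N` (`Ac`) such that `Isl (Jx a I x)` for `x ∈ C0`; `n`, `s`, `o` from `exists_par` for `μ'`; `κ_x i = kx a I (n i) x`.
`C` = the set of all `x ∈ C0` such that for all `g` for all large `i` `Trans κ_x s o i g` and `κ_x i g = some (N, m)` with `Sh 2 N (g - m)`: invariant (`kx_shift`), measurable (`kx_ms`, countable data), `μ Cᶜ = 0` (`quasi`).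
`F x` = the value of `Lb κ_x s o i 0` for all large `i` (`stage_agree`), `Ms` by `stage_ms`; `F (T g x) = Lb κ_x s o i g` for all large `i` (`stage_shift`, `kx_shift`), so `Loc (fun g => F (T g x)) g` by `stage_loc` at a large stage (the rules at `g` only see the cells `g`, `g + e`, `g + e + f`,
`g + e + e`: finitely many).
`sol_iff` and `loc_iff`.
-/

set_option autoImplicit false

namespace GTm

open EB NI BM MeasureTheory

/-- a sequence which is eventually constant -/
theorem ev_const {S : Type} (f : ℕ → S) (h : ∀ᶠ i in Filter.atTop, f (i + 1) = f i) :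
    ∃ c, ∀ᶠ i in Filter.atTop, f i = c := by
  obtain ⟨i0, h0⟩ := Filter.eventually_atTop.1 h
  refine ⟨f i0, Filter.eventually_atTop.2 ⟨i0, fun i hi => ?_⟩⟩
  induction i, hi using Nat.le_induction with
  | base => rfl
  | succ i hi ih => rw [h0 i hi, ih]

theorem ev_uniq {S : Type} (f : ℕ → S) {c c' : S} (h : ∀ᶠ i in Filter.atTop, f i = c)
    (h' : ∀ᶠ i in Filter.atTop, f i = c') : c = c' := by
  obtain ⟨i, h1, h2⟩ := (h.and h').exists
  rw [← h1, ← h2]

/-- The limit of the stages on the space. -/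
theorem lim_space {d : ℕ} (hd : 0 < d) {X : Type} [MeasurableSpace X] (a : FreeAct d X)
    (I : ℕ → Set X) (hI : ∀ N, MeasurableSet (I N)) (C : Set X) (hC : Inv a C)
    (hIsl : ∀ x ∈ C, Isl (Jx a I x)) (n s : ℕ → ℕ) (o : ℕ → Fin d → ℤ) (hs : ∀ i, 0 < s i)
    (hev : ∀ x ∈ C, ∀ᶠ i in Filter.atTop, Trans (fun i => kx a I (n i) x) s o i 0 ∧
        ∃ N m, kx a I (n i) x 0 = some (N, m) ∧ Sh 2 N (0 - m)) :
    ∃ F : C → Lab, Ms F ∧ ∀ (x : C) (g : Gd d), Loc (fun g => F ⟨a.T g x.1, hC g x.1 x.2⟩) g := by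
  have hfld : ∀ x ∈ C, ∀ i, Fld (kx a I (n i) x) := fun x hx i => kx_fld a I hd (hIsl x hx) (n i)
  have hex : ∀ x : C, ∃ c, ∀ᶠ i in Filter.atTop, Lb (fun i => kx a I (n i) x.1) s o i 0 = c := by
    intro x
    refine ev_const _ ?_
    filter_upwards [hev x.1 x.2] with i hi
    exact stage_agree (hfld x.1 x.2) hs i 0 hi.1
  choose F hF using hex
  refine ⟨F, ?_, ?_⟩
  · intro c
    have e : {x : C | F x = c} = ⋃ j : ℕ, ⋂ i : ℕ, {x : C | Lb (fun i => kx a I (n i) x.1) s o (j + i) 0 = c} := by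
      ext x
      simp only [Set.mem_ofPred_eq, Set.mem_iUnion, Set.mem_iInter]
      constructor
      · intro h
        obtain ⟨j, hj⟩ := Filter.eventually_atTop.1 (hF x)
        exact ⟨j, fun i => by rw [hj _ (Nat.le_add_right _ _), h]⟩
      · rintro ⟨j, hj⟩
        refine ev_uniq _ (hF x) (Filter.eventually_atTop.2 ⟨j, fun i hi => ?_⟩)
        have := hj (i - j)
        rwa [Nat.add_sub_cancel' hi] at this
    rw [e]
    refine MeasurableSet.iUnion fun j => MeasurableSet.iInter fun i => ?_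
    exact stage_ms (κ := fun (x : C) i => kx a I (n i) x.1) (s := s) (o := o)
      (fun i g => kx_ms a I hd hI C hIsl (n i) g) (j + i) 0 c
  · intro x g
    -- covariance
    have hcov : ∀ (h : Gd d) (i : ℕ) (u : Gd d), Lb (fun i => kx a I (n i) (a.T h x.1)) s o i u =
        Lb (fun i => kx a I (n i) x.1) s o i (u + h) := by
      intro h i u
      exact stage_shift h (fun i g => kx_shift a I hd (hIsl x.1 x.2) (n i) h g) i u
    have hag : ∀ h : Gd d, ∀ᶠ i in Filter.atTop, Lb (fun i => kx a I (n i) x.1) s o i h =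
        F ⟨a.T h x.1, hC h x.1 x.2⟩ := by
      intro h
      filter_upwards [hF ⟨a.T h x.1, hC h x.1 x.2⟩] with i hi
      rw [← hi]
      have := hcov h i 0
      rw [zero_add] at this
      exact this.symm
    have hloc : ∀ h : Gd d, ∀ᶠ i in Filter.atTop, Loc (Lb (fun i => kx a I (n i) x.1) s o i) h := by
      intro h
      filter_upwards [hev (a.T h x.1) (hC h x.1 x.2)] with i hi
      obtain ⟨-, N, m, h1, h2⟩ := hi
      rw [kx_shift a I hd (hIsl x.1 x.2) (n i) h 0, zero_add, Option.map_eq_some_iff] at h1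
      obtain ⟨⟨N', m'⟩, h3, h4⟩ := h1
      simp only [Prod.mk.injEq] at h4
      obtain ⟨rfl, rfl⟩ := h4
      have e : (0 : Gd d) - (m' - h) = h - m' := by abel
      rw [e] at h2
      exact stage_loc hd (hfld x.1 x.2) hs i h N' m' h3 h2
    refine ⟨fun e he => ?_, fun e f he hf h1 h2 => ?_, fun e f he hf h1 h2 h3 h4 => ?_⟩
    · obtain ⟨i, a1, a2, a3⟩ := ((hloc g).and ((hag g).and (hag (g + e)))).exists
      rw [← a2, ← a3]
      exact a1.edge e he
    · obtain ⟨i, a1, a2, a3, a4, a5⟩ := ((hloc g).and ((hag g).and ((hag (g + e)).and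
        ((hag (g + e + f)).and (hag (g + f)))))).exists
      rw [← a2, ← a3, ← a4, ← a5]
      exact a1.quad e f he hf h1 h2
    · obtain ⟨i, a1, a2, a3, a4, a5, a6⟩ := ((hloc g).and ((hag g).and ((hag (g + e)).and
        ((hag (g + f)).and ((hag (g + e + e)).and (hag (g + f + f))))))).exists
      rw [← a2, ← a3] at h3
      rw [← a2, ← a4] at h4
      rw [← a2, ← a5, ← a6]
      exact a1.t2 e f he hf h1 h2 h3 h4

/-- The problem has a Borel solution almost everywhere, for every free Borel action and every probability measure. -/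
theorem meas_act {d : ℕ} (hd : 0 < d) {X : Type} [MeasurableSpace X] [StandardBorelSpace X]
    (a : FreeAct d X) (μ : Measure X) [IsProbabilityMeasure μ] :
    ∃ C, MeasurableSet C ∧ Inv a C ∧ μ Cᶜ = 0 ∧ BorelSolOn a lclG C := by
  obtain ⟨μ', hμ', hq⟩ := quasi a μ
  obtain ⟨N, Z, hM⟩ := exists_mk a μ'
  have hAc := Ac_meas a N Z hM.meas
  have hD : MeasurableSet {x : X | ∃ n p, Sh 0 n p ∧ a.T (-p) x ∈ Ac a N Z n} := by
    have h1 : {x : X | ∃ n p, Sh 0 n p ∧ a.T (-p) x ∈ Ac a N Z n} =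
        ⋃ n : ℕ, ⋃ p : Gd d, ⋃ _ : Sh 0 n p, a.T (-p) ⁻¹' Ac a N Z n := by
      ext x
      simp
    rw [h1]
    exact MeasurableSet.iUnion fun n => MeasurableSet.iUnion fun p => MeasurableSet.iUnion fun _ =>
      a.meas (-p) (hAc n)
  have hae := good_ae a μ' N Z hM
  obtain ⟨D, hDdef⟩ : ∃ D : Set (X),
      D = {x : X | ∃ n p, Sh 0 n p ∧ a.T (-p) x ∈ Ac a N Z n} := ⟨_, rfl⟩
  rw [← hDdef] at hD
  have hD0 : μ' Dᶜ = 0 := by
    rw [hDdef]
    exact hae
  obtain ⟨C0, hC0⟩ : ∃ C0 : Set (X), C0 = {x : X | ∀ g, a.T g x ∈ D} := ⟨_, rfl⟩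
  have hC0m : MeasurableSet C0 := by
    have h1 : {x : X | ∀ g, a.T g x ∈ D} = ⋂ g : Gd d, a.T g ⁻¹' D := by
      ext x
      simp
    rw [hC0, h1]
    exact MeasurableSet.iInter fun g => a.meas g hD
  have hIsl0 : ∀ x ∈ C0, Isl (Jx a (Ac a N Z) x) := by
    intro x hx
    rw [hC0] at hx
    refine ⟨fun n m n' m' h1 h2 h3 => acc_nest a μ' N Z hM x n n' m m' h1 h2 h3, fun g => ?_⟩
    have h1 := hx g
    rw [hDdef] at h1
    obtain ⟨n, p, hp, hx'⟩ := h1
    refine ⟨n, g - p, ?_, ?_⟩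
    · show a.T (g - p) x ∈ Ac a N Z n
      rw [← a.add] at hx'
      rwa [sub_eq_add_neg, add_comm]
    · rwa [sub_sub_cancel]
  obtain ⟨n, s, o, hs, hpar⟩ :=
    exists_par a (Ac a N Z) hd μ' hAc C0 hC0m hIsl0
  obtain ⟨E, hE1, hE2, hE3⟩ := exists_measurable_superset_of_null (ae_iff.1 hpar)
  obtain ⟨C, hCdef⟩ : ∃ C : Set (X), C = {x : X | ∀ g, a.T g x ∈ D \ E} := ⟨_, rfl⟩
  have hCm : MeasurableSet C := by
    have h1 : {x : X | ∀ g, a.T g x ∈ D \ E} = ⋂ g : Gd d, a.T g ⁻¹' (D \ E) := by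
      ext x
      simp
    rw [hCdef, h1]
    exact MeasurableSet.iInter fun g => a.meas g (hD.diff hE2)
  have hinv : Inv a C := by
    intro g x hx
    rw [hCdef] at hx ⊢
    intro h
    rw [← a.add]
    exact hx (h + g)
  have hCC0 : C ⊆ C0 := by
    intro x hx
    rw [hCdef] at hx
    rw [hC0]
    exact fun g => (hx g).1
  have hnull : μ' (D \ E)ᶜ = 0 := by
    have : (D \ E)ᶜ = Dᶜ ∪ E := by
      ext x
      simp only [Set.mem_compl_iff, Set.mem_sdiff, Set.mem_union, not_and, not_not]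
      tauto
    rw [this]
    exact measure_union_null hD0 hE3
  refine ⟨C, hCm, hinv, ?_, ?_⟩
  · have h1 : Cᶜ = ⋃ g : Gd d, {x | a.T g x ∈ (D \ E)ᶜ} := by
      rw [hCdef]
      ext x
      simp
    rw [h1]
    exact measure_iUnion_null fun g => hq (D \ E)ᶜ (hD.diff hE2).compl hnull g
  · have hev : ∀ x ∈ C, ∀ᶠ i in Filter.atTop,
        Trans (fun i => kx a (Ac a N Z) (n i) x) s o i 0 ∧
        ∃ N' m, kx a (Ac a N Z) (n i) x 0 = some (N', m) ∧ Sh 2 N' (0 - m) := by
      intro x hx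
      by_contra hc
      have hx' := hx
      rw [hCdef] at hx'
      have h0 := (hx' 0).2
      rw [a.zero] at h0
      apply h0
      apply hE1
      show ¬ (x ∈ C0 → _)
      intro hcon
      exact hc (hcon (hCC0 hx))
    obtain ⟨F, hF, hloc⟩ := lim_space hd a (Ac a N Z) hAc C hinv
      (fun x hx => hIsl0 x (hCC0 hx)) n s o hs hev
    refine ⟨F, hF, ?_⟩
    rw [sol_iff a lclG C hinv F]
    intro x
    have := (loc_iff (fun g => F ⟨a.T g x.1, hinv g x.1 x.2⟩) 0).1 (hloc x 0)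
    convert this using 3
    simp

theorem meas_solG (d : ℕ) (hd : 0 < d) : MeasSol d lclG := by
  intro μ hμ
  have hst : StandardBorelSpace (FP d) := (FP_meas d).standardBorel
  exact meas_act hd (fshift d) μ

end GTm
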