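import Pool.Agent.Helper20.GT.Defs

/-!
# GT-7a: the choice of an offset

`∑ o ∈ range s, μ (⋃ j with wd s o j < ρ, E j) = ∑' j, #{o < s | wd s o j < ρ} * μ (E j) ≤ 2 ρ * ∑' j, μ (E j) ≤ 2 ρ * μ univ` (for each residue class of `j - o` mod `s` there is one `o`; the residues with `wd < ρ` are `[0, ρ)` and
`(s - ρ, s)`); so some `o` has at most the average.
-/

set_option autoImplicit false

namespace GTm

open EB NI BM MeasureTheory

theorem off_count (s ρ : ℕ) (hs : 0 < s) (j : ℤ) :
    ((Finset.range s).filter fun o : ℕ => wd s (o : ℤ) j < ρ).card ≤ 2 * ρ := by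
  classical
  have hs' : (0 : ℤ) < s := by exact_mod_cast hs
  have h1 : ((Finset.range s).filter fun o : ℕ => wd s (o : ℤ) j < ρ).card ≤
      (Finset.Ico (0 : ℤ) ρ ∪ Finset.Ioo ((s : ℤ) - ρ) s).card := by
    refine Finset.card_le_card_of_injOn (fun o : ℕ => (j - o) % (s : ℤ)) ?_ ?_
    · intro o ho
      have ho' := (Finset.mem_filter.mp (Finset.mem_coe.mp ho)).2
      have h2 := Int.emod_nonneg (j - o) hs'.ne'
      have h3 := Int.emod_lt_of_pos (j - o) hs'
      unfold wd at ho'
      rw [min_lt_iff] at ho'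
      rw [Finset.mem_coe, Finset.mem_union, Finset.mem_Ico, Finset.mem_Ioo]
      rcases ho' with h | h
      · exact Or.inl ⟨h2, h⟩
      · refine Or.inr ⟨?_, h3⟩
        show (s : ℤ) - ρ < (j - o) % (s : ℤ)
        linarith
    · intro o ho o' ho' h
      have h2 := Finset.mem_range.mp (Finset.mem_filter.mp (Finset.mem_coe.mp ho)).1
      have h3 := Finset.mem_range.mp (Finset.mem_filter.mp (Finset.mem_coe.mp ho')).1
      have h4 : (j - o) % (s : ℤ) = (j - o') % (s : ℤ) := h
      have h5 : (s : ℤ) ∣ (j - o) - (j - o') := (Int.emod_emod_of_dvd _ (dvd_refl _) ▸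
        Int.emod_eq_emod_iff_emod_sub_eq_zero.mp h4 |> Int.dvd_of_emod_eq_zero)
      have h6 : (s : ℤ) ∣ (o' : ℤ) - o := by
        have : (j - o) - (j - o') = (o' : ℤ) - o := by ring
        rwa [this] at h5
      have h7 : ((o' : ℤ) - o) = 0 := by
        refine Int.eq_zero_of_abs_lt_dvd h6 ?_
        rw [abs_lt]
        constructor <;> omega
      omega
  refine h1.trans ((Finset.card_union_le _ _).trans ?_)
  rw [Int.card_Ico, Int.card_Ioo]
  omega

theorem exists_off {X : Type} [MeasurableSpace X] (μ : Measure X) [IsFiniteMeasure μ]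
    (E : ℤ → Set X) (hE : ∀ j, MeasurableSet (E j)) (hd : ∀ i j, i ≠ j → Disjoint (E i) (E j))
    (s ρ : ℕ) (hs : 0 < s) :
    ∃ o : ℤ, (s : ENNReal) * μ {x | ∃ j, wd s o j < ρ ∧ x ∈ E j} ≤ 2 * ρ * μ Set.univ := by
  classical
  have h1 : ∀ o : ℤ, μ {x | ∃ j, wd s o j < ρ ∧ x ∈ E j} =
      ∑' j, if wd s o j < ρ then μ (E j) else 0 := by
    intro o
    have h2 : {x | ∃ j, wd s o j < ρ ∧ x ∈ E j} =
        ⋃ j, (if wd s o j < ρ then E j else ∅) := by
      ext x
      rw [Set.mem_iUnion]
      constructor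
      · rintro ⟨j, hj, hx⟩
        exact ⟨j, by rw [if_pos hj]; exact hx⟩
      · rintro ⟨j, hj⟩
        by_cases h : wd s o j < ρ
        · rw [if_pos h] at hj
          exact ⟨j, h, hj⟩
        · rw [if_neg h] at hj
          exact absurd hj (Set.notMem_empty _)
    rw [h2, measure_iUnion]
    · refine tsum_congr fun j => ?_
      split_ifs
      · rfl
      · exact measure_empty
    · intro i j hij
      show Disjoint (if wd s o i < ρ then E i else ∅) (if wd s o j < ρ then E j else ∅)
      split_ifs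
      · exact hd i j hij
      · exact Set.disjoint_empty _
      · exact Set.empty_disjoint _
      · exact Set.empty_disjoint _
    · intro j
      split_ifs
      · exact hE j
      · exact MeasurableSet.empty
  have hsum : ∑ o ∈ Finset.range s, μ {x | ∃ j, wd s (o : ℤ) j < ρ ∧ x ∈ E j} ≤
      2 * ρ * μ Set.univ := by
    calc ∑ o ∈ Finset.range s, μ {x | ∃ j, wd s (o : ℤ) j < ρ ∧ x ∈ E j}
        = ∑ o ∈ Finset.range s, ∑' j, (if wd s (o : ℤ) j < ρ then μ (E j) else 0) :=
          Finset.sum_congr rfl fun o _ => h1 o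
      _ = ∑' j, ∑ o ∈ Finset.range s, (if wd s (o : ℤ) j < ρ then μ (E j) else 0) :=
          (Summable.tsum_finsetSum fun _ _ => ENNReal.summable).symm
      _ ≤ ∑' j, (2 * ρ : ENNReal) * μ (E j) := by
          refine ENNReal.tsum_le_tsum fun j => ?_
          rw [← Finset.sum_filter, Finset.sum_const, nsmul_eq_mul]
          refine mul_le_mul_left ?_ _
          have := off_count s ρ hs j
          exact_mod_cast this
      _ = 2 * ρ * ∑' j, μ (E j) := ENNReal.tsum_mul_left
      _ ≤ 2 * ρ * μ Set.univ := by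
          refine mul_le_mul_right ?_ _
          rw [← measure_iUnion (fun i j hij => hd i j hij) hE]
          exact measure_mono (Set.subset_univ _)
  obtain ⟨o, -, ho⟩ := Finset.exists_min_image (Finset.range s)
    (fun o : ℕ => μ {x | ∃ j, wd s (o : ℤ) j < ρ ∧ x ∈ E j}) ⟨0, Finset.mem_range.mpr hs⟩
  refine ⟨o, le_trans ?_ hsum⟩
  have h3 := Finset.card_nsmul_le_sum (Finset.range s)
    (fun o : ℕ => μ {x | ∃ j, wd s (o : ℤ) j < ρ ∧ x ∈ E j}) _ ho
  rw [Finset.card_range, nsmul_eq_mul] at h3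
  exact h3

end GTm
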