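import Pool.Agent.Helper20.GT.Defs
import Pool.Agent.Helper20.BM.Pl

/-!
# GT-2: no blocked configuration in the plane

Heights `H` (`BM.exists_Hb`): Lipschitz, `{H ≤ m}` is `Sq` for each `m`.  A box of level `m` is a rectangle `[x0, x1] × [y0, y1]` with `H ≤ m`
inside and `H = m + 1` on the four outer sides (which are straight segments on which `l` is constant, so the sides have `< L` cells).
* An exit edge of level `m` (`H = m` at one end, `m + 1` at the other end) lies in a box of level `m` (`Sq.box`, `Sq.wall`, `Sq.wall'`, `run_or`; the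
  runs are finite as the face would be constant on `L` cells).
* At the corner `(x1, y1)` of a box there are two perpendicular exits, so by `PT2` `H (x1 + 2) y1 = m + 2` or `H x1 (y1 + 2) = m + 2`: an exit edge of level `m + 1` next to the box; its box contains
  the old one and has larger sides (by 2).
* There is an exit edge (`hx`), so there are boxes with arbitrarily large sides: contradiction.
-/

set_option autoImplicit false

namespace GTm

open NIC BM

/-- a corner of a box of level `m` -/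
structure PlCor (H : ℤ → ℤ → ℤ) (s t m x y : ℤ) (p q : ℕ) : Prop where
  c0 : H x y = m
  cx : H (x + s) y = m + 1
  cy : H x (y + t) = m + 1
  rx : ∀ i : ℕ, i ≤ p → H (x - s * i) y ≤ m
  ry : ∀ j : ℕ, j ≤ q → H x (y - t * j) ≤ m

theorem PlCor.swap {H : ℤ → ℤ → ℤ} {s t m x y : ℤ} {p q : ℕ} (h : PlCor H s t m x y p q) :
    PlCor (fun x y => H y x) t s m y x q p :=
  ⟨h.c0, h.cy, h.cx, h.ry, h.rx⟩

/-- no column is constant on `L` cells -/
theorem pl_const {l : ℤ → ℤ → ZMod 3} {L : ℕ}
    (hy : ∀ x y : ℤ, ∃ i : ℕ, i < L ∧ l x (y + i) ≠ l x y) {u v t : ℤ} (ht : Sg t) {r : ZMod 3}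
    (h : ∀ j : ℕ, j < L → l u (v + t * j) = r) : False := by
  rcases ht with ht | ht <;> subst ht
  · obtain ⟨i, hi, hne⟩ := hy u v
    have h1 := h i hi
    have h2 := h 0 (by omega)
    simp only [one_mul, Nat.cast_zero, add_zero] at h1 h2
    exact hne (h1.trans h2.symm)
  · obtain ⟨i, hi, hne⟩ := hy u (v - ((L - 1 : ℕ) : ℤ))
    have h1 := h (L - 1 - i) (by omega)
    have h2 := h (L - 1) (by omega)
    rw [show v + -1 * ((L - 1 - i : ℕ) : ℤ) = v - ((L - 1 : ℕ) : ℤ) + i by omega] at h1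
    rw [show v + -1 * ((L - 1 : ℕ) : ℤ) = v - ((L - 1 : ℕ) : ℤ) by ring] at h2
    exact hne (h1.trans h2.symm)

/-- the wall beyond an exit edge -/
theorem pl_wall {H : ℤ → ℤ → ℤ} (hH : Hb H) {s t m x y : ℤ} (hs : Sg s) (ht : Sg t) {q : ℕ}
    (h1 : H (x + s) y = m + 1) (h2 : ∀ j : ℕ, j ≤ q → H x (y + t * j) ≤ m) :
    ∀ j : ℕ, j ≤ q → H (x + s) (y + t * j) = m + 1 := by
  intro j hj
  have h3 := (hH.sq m).wall hs ht (p := 0) (q := q) (x := x) (y := y)
    (fun i hi => by
      have : i = 0 := by omega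
      subst this
      simpa using h2 0 (Nat.zero_le _)) h2 (by
        rw [show x + s * (((0 : ℕ) : ℤ) + 1) = x + s by push_cast; ring, h1]
        omega) j hj
  rw [show x + s * (((0 : ℕ) : ℤ) + 1) = x + s by push_cast; ring] at h3
  have h4 := hH.lipx x (y + t * j) s hs
  have h5 := h2 j hj
  omega

/-- an exit edge has a corner -/
theorem pl_exit {l : ℤ → ℤ → ZMod 3} {H : ℤ → ℤ → ℤ} {L : ℕ} (hH : Hb H)
    (hl : ∀ x y, ((H x y : ℤ) : ZMod 3) = l x y)
    (hy : ∀ x y : ℤ, ∃ i : ℕ, i < L ∧ l x (y + i) ≠ l x y)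
    {s t m x y : ℤ} (hs : Sg s) (ht : Sg t) {p q : ℕ} (h1 : H (x + s) y = m + 1)
    (hp : ∀ i : ℕ, i ≤ p → H (x - s * i) y ≤ m) (hq : ∀ j : ℕ, j ≤ q → H x (y - t * j) ≤ m) :
    ∃ y', PlCor H s t m x y' p q := by
  have h0 : H x y ≤ m := by simpa using hp 0 (Nat.zero_le _)
  rcases run_or (fun j : ℕ => H x (y + t * j) ≤ m) (by simpa using h0) with h2 | ⟨k, hk, hn⟩
  · exact (pl_const hy ht (u := x + s) (v := y) (r := ((m + 1 : ℤ) : ZMod 3)) fun j hj => by
      rw [← hl, pl_wall hH hs ht (q := j) h1 (fun j _ => h2 j) j le_rfl]).elim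
  · have hk0 := hk k le_rfl
    have hk1 : H x (y + t * k + t) ≤ H x (y + t * k) + 1 := hH.lipy _ _ t ht
    have hn' : ¬ H x (y + t * k + t) ≤ m := by
      rw [show y + t * (k : ℤ) + t = y + t * ((k + 1 : ℕ) : ℤ) by push_cast; ring]
      exact hn
    refine ⟨y + t * k, ⟨by omega, pl_wall hH hs ht h1 hk k le_rfl, by omega, fun i hi => ?_,
      fun j hj => ?_⟩⟩
    · have := (hH.sq m).box hs.neg ht (p := p) (q := k) (x := x) (y := y)
        (fun i hi => by
          rw [show x + -s * (i : ℤ) = x - s * i by ring]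
          exact hp i hi) hk k le_rfl i hi
      rwa [show x + -s * (i : ℤ) = x - s * i by ring] at this
    · rcases le_total j k with hjk | hjk
      · have := hk (k - j) (by omega)
        rwa [show y + t * ((k - j : ℕ) : ℤ) = y + t * k - t * j by push_cast [hjk]; ring] at this
      · have := hq (j - k) (by omega)
        rwa [show y - t * ((j - k : ℕ) : ℤ) = y + t * k - t * j by push_cast [hjk]; ring] at this

/-- the sides are short -/
theorem PlCor.lt {l : ℤ → ℤ → ZMod 3} {H : ℤ → ℤ → ℤ} {L : ℕ} (hH : Hb H)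
    (hl : ∀ x y, ((H x y : ℤ) : ZMod 3) = l x y)
    (hy : ∀ x y : ℤ, ∃ i : ℕ, i < L ∧ l x (y + i) ≠ l x y)
    {s t m x y : ℤ} (hs : Sg s) (ht : Sg t) {p q : ℕ} (h : PlCor H s t m x y p q) : q < L := by
  by_contra hc
  exact pl_const hy ht.neg (u := x + s) (v := y) (r := ((m + 1 : ℤ) : ZMod 3)) fun j hj => by
    rw [← hl, pl_wall hH hs ht.neg (q := q) h.cx (fun j hj => by
      rw [show y + -t * (j : ℤ) = y - t * j by ring]
      exact h.ry j hj) j (by omega)]

/-- one half of the step to the next level -/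
theorem PlCor.step' {l : ℤ → ℤ → ZMod 3} {H : ℤ → ℤ → ℤ} {L : ℕ} (hH : Hb H)
    (hl : ∀ x y, ((H x y : ℤ) : ZMod 3) = l x y)
    (hy : ∀ x y : ℤ, ∃ i : ℕ, i < L ∧ l x (y + i) ≠ l x y)
    {s t m x y : ℤ} (hs : Sg s) (ht : Sg t) {p q : ℕ} (h : PlCor H s t m x y p q)
    (h2 : l (x + s + s) y = l x y + 2) : ∃ x' y', PlCor H s t (m + 1) x' y' (p + 1) q := by
  have e : H (x + s + s) y = m + 1 + 1 := by
    have a1 := hH.lipx (x + s) y s hs
    have a2 := hH.lipx (x + s + s) y (-s) hs.neg
    rw [show x + s + s + -s = x + s by ring, h.cx] at a2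
    rw [h.cx] at a1
    rw [← hl, ← hl, h.c0] at h2
    have a3 : H (x + s + s) y = m ∨ H (x + s + s) y = m + 1 ∨ H (x + s + s) y = m + 1 + 1 := by
      omega
    rcases a3 with a3 | a3 | a3
    · rw [a3] at h2
      have : (2 : ZMod 3) = 0 := by linear_combination -h2
      exact absurd this (by decide)
    · rw [a3] at h2
      push_cast at h2
      have : (1 : ZMod 3) = 0 := by linear_combination -h2
      exact absurd this (by decide)
    · exact a3
  refine ⟨x + s, pl_exit hH hl hy hs ht e (fun i hi => ?_) fun j hj => ?_⟩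
  · rcases Nat.eq_zero_or_pos i with h0 | hpos
    · subst h0
      simp only [Nat.cast_zero, mul_zero, sub_zero]
      exact h.cx.le
    · have := h.rx (i - 1) (by omega)
      rw [show x - s * ((i - 1 : ℕ) : ℤ) = x + s - s * i by push_cast [hpos]; ring] at this
      omega
  · have a1 := hH.lipx x (y - t * j) s hs
    have a2 := h.ry j hj
    omega

theorem no_blocked {l : ℤ → ℤ → ZMod 3} {b : ℤ → ℤ → Bool} (h : PConf l b) (h2 : PT2 l) (L : ℕ)
    (hx : ∀ x y : ℤ, ∃ i : ℕ, i < L ∧ l (x + i) y ≠ l x y)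
    (hy : ∀ x y, ∃ i : ℕ, i < L ∧ l x (y + i) ≠ l x y) : False := by
  obtain ⟨H, hH, hl, -⟩ := exists_Hb h
  -- an exit edge
  obtain ⟨s, m, x, y, hs, h0, h1⟩ : ∃ s m x y, Sg s ∧ H x y = m ∧ H (x + s) y = m + 1 := by
    by_contra hc
    push Not at hc
    have hk : ∀ i : ℕ, H (0 + i) 0 = H 0 0 := by
      intro i
      induction i with
      | zero => simp
      | succ i ih =>
        have a1 := hc 1 _ (0 + i) 0 (Or.inl rfl) rfl
        have a2 := hc (-1) _ (0 + i + 1) 0 (Or.inr rfl) rfl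
        have a3 := hH.lipx (0 + i) 0 1 (Or.inl rfl)
        have a4 := hH.lipx (0 + i + 1) 0 (-1) (Or.inr rfl)
        rw [show (0 : ℤ) + i + 1 + -1 = 0 + i by ring] at a2 a4
        rw [show (0 : ℤ) + ((i + 1 : ℕ) : ℤ) = 0 + i + 1 by push_cast; ring]
        omega
    obtain ⟨i, -, hi⟩ := hx 0 0
    exact hi (by rw [← hl, ← hl, hk])
  have hsg : Sg 1 := Or.inl rfl
  -- corners with long sides
  have key : ∀ n : ℕ, ∃ m x y p q, PlCor H s 1 m x y p q ∧ n ≤ p + q := by
    intro n
    induction n with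
    | zero =>
      obtain ⟨y', hy'⟩ := pl_exit hH hl hy hs hsg (m := m) (x := x) (y := y) (p := 0) (q := 0) h1
        (fun i hi => by
          have : i = 0 := by omega
          subst this
          simpa using h0.le)
        (fun j hj => by
          have : j = 0 := by omega
          subst this
          simpa using h0.le)
      exact ⟨m, x, y', 0, 0, hy', le_rfl⟩
    | succ n ih =>
      obtain ⟨m, x, y, p, q, hc, hn⟩ := ih
      rcases h2 x y s 1 hs hsg (by rw [← hl, ← hl, hc.c0, hc.cx]; push_cast; rfl)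
        (by rw [← hl, ← hl, hc.c0, hc.cy]; push_cast; rfl) with e | e
      · obtain ⟨x', y', h3⟩ := hc.step' hH hl hy hs hsg e
        exact ⟨_, x', y', _, _, h3, by omega⟩
      · obtain ⟨y', x', h3⟩ := hc.swap.step' (l := fun x y => l y x) (L := L) hH.swap
          (fun x y => hl y x) (fun x y => hx y x) hsg hs e
        exact ⟨_, x', y', _, _, h3.swap, by omega⟩
  obtain ⟨m, x, y, p, q, hc, hn⟩ := key (2 * L)
  have a1 := hc.lt hH hl hy hs hsg
  have a2 := hc.swap.lt (l := fun x y => l y x) (L := L) hH.swap (fun x y => hl y x)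
    (fun x y => hx y x) hsg hs
  omega

end GTm
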