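import Pool.Agent.Helper20.GT.Defs

/-!
# GT-5: the stage functions
-/

set_option autoImplicit false

namespace GTm

open EB NI BM

/-! ### One coordinate -/

private theorem st_succ {s : ℤ} (hs : 0 < s) (a : ℤ) :
    (a % s + 1 < s ∧ (a + 1) % s = a % s + 1 ∧ (a + 1) / s = a / s) ∨
      (a % s = s - 1 ∧ (a + 1) % s = 0) := by
  have h0 := Int.emod_nonneg a hs.ne'
  have h1 := Int.emod_lt_of_pos a hs
  have h2 := Int.emod_add_mul_ediv a s
  by_cases h : a % s + 1 < s
  · left
    have h3 := (Int.ediv_emod_unique (a := a + 1) (r := a % s + 1) (q := a / s) hs).2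
      ⟨by omega, by omega, h⟩
    exact ⟨h, h3.2, h3.1⟩
  · right
    have h3 := (Int.ediv_emod_unique (a := a + 1) (r := 0) (q := a / s + 1) hs).2
      ⟨by rw [mul_add, mul_one]; omega, le_refl _, hs⟩
    exact ⟨by omega, h3.2⟩

private theorem st_pred {s : ℤ} (hs : 0 < s) (a : ℤ) :
    (1 ≤ a % s ∧ (a - 1) % s = a % s - 1 ∧ (a - 1) / s = a / s) ∨
      (a % s = 0 ∧ (a - 1) % s = s - 1) := by
  have h := st_succ hs (a - 1)
  rw [sub_add_cancel] at h
  have h0 := Int.emod_nonneg (a - 1) hs.ne'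
  rcases h with ⟨h1, h2, h3⟩ | ⟨h1, h2⟩
  · left
    exact ⟨by omega, by omega, h3.symm⟩
  · right
    exact ⟨h2, h1⟩

/-- the walls -/
private theorem wd_nonneg {s : ℕ} (hs : 0 < s) (o r : ℤ) : 0 ≤ wd s o r := by
  have hs' : (0 : ℤ) < s := by exact_mod_cast hs
  have h0 := Int.emod_nonneg (r - o) hs'.ne'
  have h1 := Int.emod_lt_of_pos (r - o) hs'
  unfold wd
  omega

private theorem wd_eq_zero {s : ℕ} (hs : 0 < s) (o r : ℤ) : wd s o r = 0 ↔ (r - o) % s = 0 := by
  have hs' : (0 : ℤ) < s := by exact_mod_cast hs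
  have h0 := Int.emod_nonneg (r - o) hs'.ne'
  have h1 := Int.emod_lt_of_pos (r - o) hs'
  unfold wd
  omega

private theorem wd_succ {s : ℕ} (hs : 0 < s) (o r : ℤ) :
    wd s o (r + 1) ≤ wd s o r + 1 ∧ wd s o r ≤ wd s o (r + 1) + 1 := by
  have hs' : (0 : ℤ) < s := by exact_mod_cast hs
  have h0 := Int.emod_nonneg (r - o) hs'.ne'
  have h1 := Int.emod_lt_of_pos (r - o) hs'
  have h2 := st_succ hs' (r - o)
  have e : r + 1 - o = r - o + 1 := by ring
  unfold wd
  rw [e]
  omega

private theorem wd_lip {s : ℕ} (hs : 0 < s) (o r t : ℤ) (ht : -1 ≤ t ∧ t ≤ 1) :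
    wd s o (r + t) ≤ wd s o r + 1 := by
  have h1 := wd_succ hs o r
  have h2 := wd_succ hs o (r - 1)
  rw [sub_add_cancel] at h2
  obtain h | h | h : t = 0 ∨ t = 1 ∨ t = -1 := by omega
  · subst h
    rw [add_zero]
    omega
  · subst h
    omega
  · subst h
    rw [← sub_eq_add_neg]
    omega

/-- moving towards a wall -/
private theorem wd_app {s : ℕ} (hs : 0 < s) (o r t : ℤ) (ht : t = 1 ∨ t = -1)
    (h1 : wd s o (r + t) + 1 ≤ wd s o r) (h2 : 1 ≤ wd s o (r + t)) :
    wd s o (r + t + t) + 1 ≤ wd s o (r + t) := by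
  have hs' : (0 : ℤ) < s := by exact_mod_cast hs
  have h0 := Int.emod_nonneg (r - o) hs'.ne'
  have h3 := Int.emod_lt_of_pos (r - o) hs'
  unfold wd at *
  rcases ht with rfl | rfl
  · have e1 : r + 1 - o = r - o + 1 := by ring
    have e2 : r + 1 + 1 - o = r - o + 1 + 1 := by ring
    rw [e1] at h1 h2
    rw [e1, e2]
    have h4 := st_succ hs' (r - o)
    have h5 := st_succ hs' (r - o + 1)
    omega
  · have e1 : r + -1 - o = r - o - 1 := by ring
    have e2 : r + -1 + -1 - o = r - o - 1 - 1 := by ring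
    rw [e1] at h1 h2
    rw [e1, e2]
    have h4 := st_pred hs' (r - o)
    have h5 := st_pred hs' (r - o - 1)
    omega

private theorem fk_lip {N s : ℕ} (hs : 0 < s) (o : ℤ) (k : ℕ) (r t : ℤ) (ht : -1 ≤ t ∧ t ≤ 1) :
    fk N s o k (r + t) ≤ fk N s o k r + 1 := by
  have h1 := wd_lip hs o (r + t) (-t) (by omega)
  rw [add_neg_cancel_right] at h1
  unfold fk
  omega

private theorem fk_exit {N s : ℕ} (hs : 0 < s) (o : ℤ) (k : ℕ) (r t c : ℤ) (ht : t = 1 ∨ t = -1)
    (h1 : fk N s o k r ≤ c) (h2 : c + 1 ≤ fk N s o k (r + t)) :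
    c + 2 ≤ fk N s o k (r + t + t) ∨ c + 1 = -3 * k := by
  have ht' : -1 ≤ t ∧ t ≤ 1 := by omega
  have h3 := wd_lip hs o (r + t) (-t) (by omega)
  have h4 := wd_lip hs o r t ht'
  have h5 := wd_app hs o r t ht
  have h6 := wd_nonneg hs o (r + t)
  rw [add_neg_cancel_right] at h3
  unfold fk at *
  rcases ht with rfl | rfl <;> omega

private theorem fk_wall {N s : ℕ} {d : ℕ} (k : Fin d) (o r c : ℤ) (h : fk N s o k r ≤ c) :
    -3 * (d : ℤ) + 3 - c ≤ wd s o r := by
  have hk : (k : ℕ) < d := k.2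
  unfold fk at h
  omega

/-! ### Cells -/

variable {d : ℕ}

private theorem cell_of {s : ℕ} (hs : 0 < s) {o : Fin d → ℤ} {r r' : Gd d}
    (h : ∀ k, -1 ≤ r' k - r k ∧ r' k - r k ≤ 1) (h1 : ∀ k, (r k - o k) % s ≠ 0)
    (h2 : ∀ k, (r' k - o k) % s ≠ 0) : Cell s o r r' := by
  have hs' : (0 : ℤ) < s := by exact_mod_cast hs
  intro k
  refine ⟨?_, h1 k, h2 k⟩
  have hk := h k
  obtain e | e | e : r' k = r k ∨ r' k = r k + 1 ∨ r' k = r k - 1 := by omega
  · rw [e]
  · have h3 := st_succ hs' (r k - o k)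
    have e2 : r' k - o k = r k - o k + 1 := by omega
    have h4 := h2 k
    rw [e2] at h4 ⊢
    rcases h3 with h3 | h3
    · exact h3.2.2.symm
    · exact absurd h3.2 h4
  · have h3 := st_pred hs' (r k - o k)
    have e2 : r' k - o k = r k - o k - 1 := by omega
    rw [e2]
    rcases h3 with h3 | h3
    · exact h3.2.2.symm
    · exact absurd h3.1 (h1 k)

private theorem Cell.symm {s : ℕ} {o : Fin d → ℤ} {r r' : Gd d} (h : Cell s o r r') :
    Cell s o r' r := fun k => ⟨(h k).1.symm, (h k).2.2, (h k).2.1⟩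

private theorem Cell.trans {s : ℕ} {o : Fin d → ℤ} {r r' r'' : Gd d} (h : Cell s o r r')
    (h' : Cell s o r' r'') : Cell s o r r'' := fun k =>
  ⟨(h k).1.trans (h' k).1, (h k).2.1, (h' k).2.2⟩

/-- good cells -/
private theorem good_cell {κ κ' : Gd d → Option (ℕ × Gd d)} (hκ : Fld κ) (hκ' : Fld κ') {s : ℕ}
    {o : Fin d → ℤ} {g g' : Gd d} {N : ℕ} {m : Gd d} (h : κ g = some (N, m))
    (hg : Sh 0 N (g' - m)) (hc : Cell s o (g - m) (g' - m)) (hG : Good κ κ' s o g) :
    Good κ κ' s o g' ∧ ∃ N' m', κ' g = some (N', m') ∧ κ' g' = some (N', m') := by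
  obtain ⟨N1, m1, N', m', h1, h2, h3⟩ := hG
  rw [h] at h1
  obtain ⟨rfl, rfl⟩ := Prod.mk.inj (Option.some.inj h1)
  have h4 := h3 g' hg hc
  have h5 := hκ'.cst g N' m' h2 g' h4
  exact ⟨⟨N, m, N', m', hκ.cst g N m h g' hg, h5, fun g'' a1 a2 => h3 g'' a1 (hc.trans a2)⟩,
    N', m', h2, h5⟩

/-! ### The height -/

variable {κ : ℕ → Gd d → Option (ℕ × Gd d)} {s : ℕ → ℕ} {o : ℕ → Fin d → ℤ}

open Classical in
/-- the inner part of the height -/
private noncomputable def Gs (κ : ℕ → Gd d → Option (ℕ × Gd d)) (s : ℕ → ℕ) (o : ℕ → Fin d → ℤ)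
    (i : ℕ) (g : Gd d) : ℤ :=
  (if Good (κ (i + 1)) (κ i) (s (i + 1)) (o (i + 1)) g then Hs κ s o i g else 0) - 3 * d

private theorem Hs_le {i : ℕ} {g : Gd d} {N : ℕ} {m : Gd d} (h : κ (i + 1) g = some (N, m))
    (c : ℤ) : Hs κ s o (i + 1) g ≤ c ↔
      Gs κ s o i g ≤ c ∧ ∀ k : Fin d, fk N (s (i + 1)) (o (i + 1) k) k (g k - m k) ≤ c := by
  have e : Hs κ s o (i + 1) g = Finset.univ.fold max (Gs κ s o i g)
      fun k : Fin d => fk N (s (i + 1)) (o (i + 1) k) k (g k - m k) := by
    rw [Hs, h]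
    rfl
  rw [e, Finset.fold_max_le]
  simp

private theorem Hs_ge (i : ℕ) (g : Gd d) : -3 * (d : ℤ) * i ≤ Hs κ s o i g := by
  induction i generalizing g with
  | zero => simp [Hs]
  | succ i ih =>
    rcases hκ : κ (i + 1) g with _ | ⟨N, m⟩
    · rw [Hs, hκ]
      have : (0 : ℤ) ≤ (d : ℤ) * ((i + 1 : ℕ) : ℤ) := by positivity
      show -3 * (d : ℤ) * ((i + 1 : ℕ) : ℤ) ≤ 0
      nlinarith
    · have h1 := ((Hs_le (s := s) (o := o) hκ _).1 le_rfl).1
      refine le_trans ?_ h1
      have h2 := ih g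
      unfold Gs
      have h3 : (0 : ℤ) ≤ (d : ℤ) * (i : ℤ) := by positivity
      split_ifs
      · push_cast
        nlinarith
      · push_cast
        nlinarith

private theorem Hs_le_two (hs : ∀ i, 0 < s i) (hκ : ∀ i, Fld (κ i)) (i : ℕ) (g : Gd d) :
    Hs κ s o i g ≤ 2 := by
  induction i generalizing g with
  | zero => simp [Hs]
  | succ i ih =>
    rcases hk : κ (i + 1) g with _ | ⟨N, m⟩
    · rw [Hs, hk]
      norm_num
    · rw [Hs_le hk]
      refine ⟨?_, fun k => ?_⟩
      · have h2 := ih g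
        unfold Gs
        split_ifs <;> omega
      · have h1 := (hκ (i + 1)).mem g N m hk k
        have h2 := wd_nonneg (hs (i + 1)) (o (i + 1) k) (g k - m k)
        rw [Pi.sub_apply] at h1
        unfold fk
        omega

private theorem Gs_le (hs : ∀ i, 0 < s i) (hκ : ∀ i, Fld (κ i)) (i : ℕ) (g : Gd d) :
    Gs κ s o i g ≤ 2 - 3 * d := by
  have h2 := Hs_le_two (o := o) hs hκ i g
  unfold Gs
  split_ifs <;> omega

/-- no wall at `g` -/
private theorem nowall (hs : ∀ i, 0 < s i) {i : ℕ} {N : ℕ} {r : Gd d} {k : Fin d} {c : ℤ}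
    (h : fk N (s i) (o i k) k (r k) ≤ c) (hc : c ≤ 2 - 3 * d) : (r k - o i k) % (s i : ℕ) ≠ 0 := by
  have h1 := fk_wall k _ _ _ h
  intro h2
  have h3 := (wd_eq_zero (hs i) (o i k) (r k)).2 h2
  omega

private theorem un_cases {e : Gd d} (h : Un e) : ∃ (k : Fin d) (t : ℤ), (t = 1 ∨ t = -1) ∧
    e = t • un k := by
  obtain ⟨k, h | h⟩ := h
  · exact ⟨k, 1, Or.inl rfl, by rw [h, one_smul]⟩
  · exact ⟨k, -1, Or.inr rfl, by rw [h, neg_smul, one_smul]⟩

private theorem tun_self (t : ℤ) (k : Fin d) : (t • un k : Gd d) k = t := by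
  rw [Pi.smul_apply, un_self, smul_eq_mul, mul_one]

private theorem tun_off (t : ℤ) {k j : Fin d} (h : j ≠ k) : (t • un k : Gd d) j = 0 := by
  rw [Pi.smul_apply, un_off h, smul_zero]

/-- two neighbours without walls -/
private theorem cell_adj (hs : ∀ i, 0 < s i) {i : ℕ} {g g' m : Gd d}
    (h : ∀ k, -1 ≤ g' k - g k ∧ g' k - g k ≤ 1)
    (h1 : ∀ k, ((g - m) k - o i k) % (s i : ℕ) ≠ 0)
    (h2 : ∀ k, ((g' - m) k - o i k) % (s i : ℕ) ≠ 0) : Cell (s i) (o i) (g - m) (g' - m) := by
  refine cell_of (hs i) (fun k => ?_) h1 h2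
  have := h k
  simp only [Pi.sub_apply]
  omega

/-- the step for a pair in one cell -/
private theorem Gs_pair (hκ : ∀ i, Fld (κ i)) {i : ℕ} {g g' : Gd d} {N : ℕ} {m : Gd d}
    (h : κ (i + 1) g = some (N, m)) (hg : Sh 0 N (g' - m))
    (hc : Cell (s (i + 1)) (o (i + 1)) (g - m) (g' - m)) :
    (¬ Good (κ (i + 1)) (κ i) (s (i + 1)) (o (i + 1)) g ∧
      ¬ Good (κ (i + 1)) (κ i) (s (i + 1)) (o (i + 1)) g' ∧ Gs κ s o i g = 0 - 3 * d ∧
      Gs κ s o i g' = 0 - 3 * d) ∨
    ∃ N' m', Good (κ (i + 1)) (κ i) (s (i + 1)) (o (i + 1)) g ∧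
      Good (κ (i + 1)) (κ i) (s (i + 1)) (o (i + 1)) g' ∧ κ i g = some (N', m') ∧
      κ i g' = some (N', m') ∧ Gs κ s o i g = Hs κ s o i g - 3 * d ∧
      Gs κ s o i g' = Hs κ s o i g' - 3 * d := by
  have h' := (hκ (i + 1)).cst g N m h g' hg
  have h0 := (hκ (i + 1)).mem g N m h
  by_cases hG : Good (κ (i + 1)) (κ i) (s (i + 1)) (o (i + 1)) g
  · right
    obtain ⟨hG', N', m', a1, a2⟩ := good_cell (hκ (i + 1)) (hκ i) h hg hc hG
    refine ⟨N', m', hG, hG', a1, a2, ?_, ?_⟩
    · unfold Gs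
      rw [if_pos hG]
    · unfold Gs
      rw [if_pos hG']
  · left
    have hG' : ¬ Good (κ (i + 1)) (κ i) (s (i + 1)) (o (i + 1)) g' := fun hc' =>
      hG (good_cell (hκ (i + 1)) (hκ i) h' h0 hc.symm hc').1
    refine ⟨hG, hG', ?_, ?_⟩
    · unfold Gs
      rw [if_neg hG]
    · unfold Gs
      rw [if_neg hG']

/-- the height is Lipschitz -/
private theorem Hs_lip (hκ : ∀ i, Fld (κ i)) (hs : ∀ i, 0 < s i) (i : ℕ) :
    ∀ (g e : Gd d) (N : ℕ) (m : Gd d), Un e → κ i g = some (N, m) → Sh 0 N (g + e - m) →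
      Hs κ s o i (g + e) ≤ Hs κ s o i g + 1 := by
  induction i with
  | zero =>
    intro g e N m _ _ _
    simp [Hs]
  | succ i ih =>
    intro g e N m he h hg
    have h' := (hκ (i + 1)).cst g N m h _ hg
    obtain ⟨hG, hW⟩ := (Hs_le (s := s) (o := o) h _).1 le_rfl
    have hb := he.bd
    rw [Hs_le h']
    constructor
    · by_cases hc : Cell (s (i + 1)) (o (i + 1)) (g - m) (g + e - m)
      · rcases Gs_pair hκ h hg hc with ⟨-, -, a3, a4⟩ | ⟨N', m', -, -, a3, a4, a5, a6⟩
        · rw [a4, ← a3]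
          omega
        · have a7 := ih g e N' m' he a3 ((hκ i).mem _ _ _ a4)
          rw [a6]
          rw [a5] at hG
          omega
      · have hG' := Gs_le (o := o) hs hκ i (g + e)
        obtain ⟨k, hk⟩ : ∃ k, wd (s (i + 1)) (o (i + 1) k) (g k - m k) ≤ 1 := by
          by_contra hcon
          push Not at hcon
          refine hc (cell_adj hs (fun k => ?_) (fun k hk => ?_) fun k hk => ?_)
          · have := hb k
            rw [Pi.add_apply]
            omega
          · have h1 := (wd_eq_zero (hs (i + 1)) _ _).2 hk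
            have h2 := hcon k
            rw [Pi.sub_apply] at h1
            omega
          · have h1 := (wd_eq_zero (hs (i + 1)) _ _).2 hk
            have h2 := hcon k
            have h3 := wd_lip (hs (i + 1)) (o (i + 1) k) ((g + e - m) k) (-(e k)) (by
              have := hb k
              omega)
            have e1 : (g + e - m) k + -(e k) = g k - m k := by
              rw [Pi.sub_apply, Pi.add_apply]
              ring
            rw [e1] at h3
            omega
        have h4 := fk_wall k _ _ _ (hW k)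
        omega
    · intro k
      have h1 := fk_lip (N := N) (hs (i + 1)) (o (i + 1) k) k (g k - m k) (e k) (hb k)
      have e1 : (g + e) k - m k = g k - m k + e k := by
        rw [Pi.add_apply]
        ring
      rw [e1]
      have := hW k
      omega

/-- perpendicular unit vectors -/
private theorem un_perp {e f : Gd d} (he : Un e) (hf : Un f) (h1 : f ≠ e) (h2 : f ≠ -e) (k : Fin d) :
    e k = 0 ∨ f k = 0 := by
  by_contra hc
  push Not at hc
  obtain ⟨i, t, ht, rfl⟩ := un_cases he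
  obtain ⟨j, t', ht', rfl⟩ := un_cases hf
  have hki : k = i := by
    by_contra h
    exact hc.1 (tun_off t h)
  have hkj : k = j := by
    by_contra h
    exact hc.2 (tun_off t' h)
  subst hki
  subst hkj
  rcases ht with rfl | rfl <;> rcases ht' with rfl | rfl
  · exact h1 rfl
  · exact h2 (by rw [neg_smul])
  · exact h2 (by rw [neg_smul, neg_neg])
  · exact h1 rfl

/-- the rule for the diagonals -/
private theorem Hs_diag (hκ : ∀ i, Fld (κ i)) (hs : ∀ i, 0 < s i) (i : ℕ) :
    ∀ (g e f : Gd d) (N : ℕ) (m : Gd d), (∀ k, -1 ≤ e k ∧ e k ≤ 1) → (∀ k, -1 ≤ f k ∧ f k ≤ 1) →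
      (∀ k, e k = 0 ∨ f k = 0) → κ i g = some (N, m) → Sh 0 N (g + e - m) → Sh 0 N (g + f - m) →
      Sh 0 N (g + e + f - m) → ∀ c, Hs κ s o i g ≤ c → Hs κ s o i (g + e + f) ≤ c →
      Hs κ s o i (g + e) ≤ c := by
  induction i with
  | zero =>
    intro g e f N m _ _ _ _ _ _ _ c h1 _
    simpa [Hs] using h1
  | succ i ih =>
    intro g e f N m he hf hef h b1 b2 b3 c h1 h2
    have k1 := (hκ (i + 1)).cst g N m h _ b1
    have k2 := (hκ (i + 1)).cst g N m h _ b2
    have k3 := (hκ (i + 1)).cst g N m h _ b3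
    obtain ⟨hG, hW⟩ := (Hs_le (s := s) (o := o) h _).1 h1
    obtain ⟨hG', hW'⟩ := (Hs_le (s := s) (o := o) k3 _).1 h2
    rw [Hs_le k1]
    constructor
    · by_cases hc : 2 - 3 * (d : ℤ) ≤ c
      · exact (Gs_le (o := o) hs hκ i (g + e)).trans hc
      · have hcc : c ≤ 2 - 3 * (d : ℤ) := by omega
        have n1 : ∀ k, ((g - m) k - o (i + 1) k) % (s (i + 1) : ℕ) ≠ 0 := fun k =>
          nowall (r := g - m) hs (hW k) hcc
        have n2 : ∀ k, ((g + e + f - m) k - o (i + 1) k) % (s (i + 1) : ℕ) ≠ 0 := fun k =>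
          nowall (r := g + e + f - m) hs (hW' k) hcc
        have n3 : ∀ k, ((g + e - m) k - o (i + 1) k) % (s (i + 1) : ℕ) ≠ 0 := fun k => by
          rcases hef k with h0 | h0
          · have e1 : (g + e - m) k = (g - m) k := by
              simp only [Pi.sub_apply, Pi.add_apply, h0, add_zero]
            rw [e1]
            exact n1 k
          · have e1 : (g + e - m) k = (g + e + f - m) k := by
              simp only [Pi.sub_apply, Pi.add_apply, h0, add_zero]
            rw [e1]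
            exact n2 k
        have n4 : ∀ k, ((g + f - m) k - o (i + 1) k) % (s (i + 1) : ℕ) ≠ 0 := fun k => by
          rcases hef k with h0 | h0
          · have e1 : (g + f - m) k = (g + e + f - m) k := by
              simp only [Pi.sub_apply, Pi.add_apply, h0, add_zero]
            rw [e1]
            exact n2 k
          · have e1 : (g + f - m) k = (g - m) k := by
              simp only [Pi.sub_apply, Pi.add_apply, h0, add_zero]
            rw [e1]
            exact n1 k
        have c1 : Cell (s (i + 1)) (o (i + 1)) (g - m) (g + e - m) :=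
          cell_adj hs (fun k => by
            have := he k
            rw [Pi.add_apply]
            omega) n1 n3
        have c2 : Cell (s (i + 1)) (o (i + 1)) (g - m) (g + f - m) :=
          cell_adj hs (fun k => by
            have := hf k
            rw [Pi.add_apply]
            omega) n1 n4
        have c3 : Cell (s (i + 1)) (o (i + 1)) (g - m) (g + e + f - m) :=
          cell_adj hs (fun k => by
            have h3 := he k
            have h4 := hf k
            have h5 := hef k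
            rw [Pi.add_apply, Pi.add_apply]
            omega) n1 n2
        rcases Gs_pair hκ h b1 c1 with ⟨-, -, a3, a4⟩ | ⟨N', m', q1, -, a3, a4, a5, a6⟩
        · rw [a4, ← a3]
          exact hG
        · rcases Gs_pair hκ h b2 c2 with ⟨a7, -⟩ | ⟨N2, m2, -, -, a7, a8, -, -⟩
          · exact absurd q1 a7
          · rcases Gs_pair hκ h b3 c3 with ⟨a9, -⟩ | ⟨N3, m3, -, -, a9, a10, a11, a12⟩
            · exact absurd q1 a9
            · rw [a3] at a7 a9
              obtain ⟨rfl, rfl⟩ := Prod.mk.inj (Option.some.inj a7)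
              obtain ⟨rfl, rfl⟩ := Prod.mk.inj (Option.some.inj a9)
              rw [a6]
              rw [a5] at hG
              rw [a12] at hG'
              have := ih g e f N' m' he hf hef a3 ((hκ i).mem _ _ _ a4) ((hκ i).mem _ _ _ a8)
                ((hκ i).mem _ _ _ a10) (c + 3 * d) (by omega) (by omega)
              omega
    · intro k
      rcases hef k with h0 | h0
      · have e1 : (g + e) k = g k := by rw [Pi.add_apply, h0, add_zero]
        rw [e1]
        exact hW k
      · have e1 : (g + e) k = (g + e + f) k := by rw [Pi.add_apply, Pi.add_apply, Pi.add_apply, h0,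
          add_zero]
        rw [e1]
        exact hW' k

/-- the exits -/
private theorem Hs_exit (hκ : ∀ i, Fld (κ i)) (hs : ∀ i, 0 < s i) (i : ℕ) :
    ∀ (g : Gd d) (k : Fin d) (t : ℤ) (N : ℕ) (m : Gd d), (t = 1 ∨ t = -1) → κ i g = some (N, m) →
      Sh 0 N (g + t • un k - m) → Sh 0 N (g + t • un k + t • un k - m) → ∀ c, Hs κ s o i g ≤ c →
      c + 1 ≤ Hs κ s o i (g + t • un k) →
      c + 2 ≤ Hs κ s o i (g + t • un k + t • un k) ∨ ∃ j : ℕ, c + 1 = -3 * k - 3 * d * j := by
  induction i with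
  | zero =>
    intro g k t N m _ _ _ _ c h1 h2
    simp only [Hs] at h1 h2
    omega
  | succ i ih =>
    intro g k t N m ht h b1 b2 c h1 h2
    have ht' : -1 ≤ t ∧ t ≤ 1 := by omega
    have k1 := (hκ (i + 1)).cst g N m h _ b1
    have k2 := (hκ (i + 1)).cst g N m h _ b2
    obtain ⟨hG, hW⟩ := (Hs_le (s := s) (o := o) h _).1 h1
    have hge : ∀ c', (∃ j, c' ≤ fk N (s (i + 1)) (o (i + 1) j) j ((g + t • un k + t • un k) j - m j)) ∨
        c' ≤ Gs κ s o i (g + t • un k + t • un k) → c' ≤ Hs κ s o (i + 1) (g + t • un k + t • un k) := by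
      intro c' hc'
      have h3 := (Hs_le (s := s) (o := o) k2 _).1 le_rfl
      rcases hc' with ⟨j, hj⟩ | hj
      · exact hj.trans (h3.2 j)
      · exact hj.trans h3.1
    by_cases hW' : ∀ j, fk N (s (i + 1)) (o (i + 1) j) j ((g + t • un k) j - m j) ≤ c
    · -- the inner part
      have hG' : c + 1 ≤ Gs κ s o i (g + t • un k) := by
        by_contra hcon
        have : Hs κ s o (i + 1) (g + t • un k) ≤ c := (Hs_le k1 _).2 ⟨by omega, hW'⟩
        omega
      have hG2 := Gs_le (o := o) hs hκ i (g + t • un k)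
      have w1 : ∀ j, 2 ≤ wd (s (i + 1)) (o (i + 1) j) ((g + t • un k) j - m j) := fun j => by
        have := fk_wall j _ _ _ (hW' j)
        omega
      have n1 : ∀ j, ((g - m) j - o (i + 1) j) % (s (i + 1) : ℕ) ≠ 0 := fun j =>
        nowall (r := g - m) hs (hW j) (by omega)
      have n2 : ∀ j, ((g + t • un k - m) j - o (i + 1) j) % (s (i + 1) : ℕ) ≠ 0 := fun j =>
        nowall (r := g + t • un k - m) hs (hW' j) (by omega)
      have hb : ∀ j, -1 ≤ (t • un k : Gd d) j ∧ (t • un k : Gd d) j ≤ 1 := fun j => by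
        by_cases hj : j = k
        · rw [hj, tun_self]
          exact ht'
        · rw [tun_off t hj]
          omega
      have n3 : ∀ j, ((g + t • un k + t • un k - m) j - o (i + 1) j) % (s (i + 1) : ℕ) ≠ 0 := by
        intro j hj
        have h3 := (wd_eq_zero (hs (i + 1)) _ _).2 hj
        have h4 := wd_lip (hs (i + 1)) (o (i + 1) j) ((g + t • un k + t • un k - m) j)
          (-(t • un k : Gd d) j) (by
            have := hb j
            omega)
        have e1 : (g + t • un k + t • un k - m) j + -(t • un k : Gd d) j =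
            (g + t • un k) j - m j := by
          simp only [Pi.sub_apply, Pi.add_apply]
          ring
        rw [e1] at h4
        have h5 := w1 j
        omega
      have c1 : Cell (s (i + 1)) (o (i + 1)) (g - m) (g + t • un k - m) :=
        cell_adj hs (fun j => by
          have := hb j
          rw [Pi.add_apply]
          omega) n1 n2
      have c2 : Cell (s (i + 1)) (o (i + 1)) (g + t • un k - m) (g + t • un k + t • un k - m) :=
        cell_adj hs (fun j => by
          have := hb j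
          rw [Pi.add_apply (g + t • un k)]
          omega) n2 n3
      rcases Gs_pair hκ h b1 c1 with ⟨-, -, a3, a4⟩ | ⟨N', m', -, a2, a3, a4, a5, a6⟩
      · rw [a3] at hG
        rw [a4] at hG'
        omega
      · rcases Gs_pair hκ k1 b2 c2 with ⟨a7, -⟩ | ⟨N2, m2, -, -, a7, a8, -, a10⟩
        · exact absurd a2 a7
        · rw [a4] at a7
          obtain ⟨rfl, rfl⟩ := Prod.mk.inj (Option.some.inj a7)
          rw [a5] at hG
          rw [a6] at hG'
          rcases ih g k t N' m' ht a3 ((hκ i).mem _ _ _ a4) ((hκ i).mem _ _ _ a8) (c + 3 * d)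
            (by omega) (by omega) with h6 | ⟨j, h6⟩
          · left
            apply hge
            right
            rw [a10]
            omega
          · right
            refine ⟨j + 1, ?_⟩
            push_cast
            linarith
    · push Not at hW'
      obtain ⟨j, hj⟩ := hW'
      have hjk : j = k := by
        by_contra hne
        have e1 : (g + t • un k) j = g j := by rw [Pi.add_apply, tun_off t hne, add_zero]
        rw [e1] at hj
        have := hW j
        omega
      subst hjk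
      have e1 : (g + t • un j) j - m j = g j - m j + t := by
        rw [Pi.add_apply, tun_self]
        ring
      have e2 : (g + t • un j + t • un j) j - m j = g j - m j + t + t := by
        rw [Pi.add_apply, Pi.add_apply, tun_self]
        ring
      rw [e1] at hj
      rcases fk_exit (hs (i + 1)) (o (i + 1) j) j (g j - m j) t c ht (hW j) hj with h6 | h6
      · left
        apply hge
        left
        exact ⟨j, by rw [e2]; exact h6⟩
      · right
        exact ⟨0, by rw [Nat.cast_zero, mul_zero, sub_zero]; exact h6⟩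

/-- the phases -/
private theorem Ph_adj (hκ : ∀ i, Fld (κ i)) (hs : ∀ i, 0 < s i) (i : ℕ) :
    ∀ (g e : Gd d) (N : ℕ) (m : Gd d), Un e → κ i g = some (N, m) → Sh 0 N (g + e - m) →
      ∀ h, Hs κ s o i g ≤ h → Hs κ s o i (g + e) ≤ h → Ph κ s o i (g + e) h = Ph κ s o i g h := by
  induction i with
  | zero =>
    intro g e N m _ h hg _ _ _
    have h' := (hκ 0).cst g N m h _ hg
    rw [Ph, Ph, h, h']
  | succ i ih =>
    intro g e N m he h hg c h1 h2
    have h' := (hκ (i + 1)).cst g N m h _ hg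
    obtain ⟨hG, hW⟩ := (Hs_le (s := s) (o := o) h _).1 h1
    obtain ⟨hG', hW'⟩ := (Hs_le (s := s) (o := o) h' _).1 h2
    rw [Ph, Ph]
    by_cases hc : c ≤ 2 - 3 * (d : ℤ)
    · have c1 : Cell (s (i + 1)) (o (i + 1)) (g - m) (g + e - m) :=
        cell_adj hs (fun k => by
          have := he.bd k
          rw [Pi.add_apply]
          omega) (fun k => nowall (r := g - m) hs (hW k) hc)
          fun k => nowall (r := g + e - m) hs (hW' k) hc
      rcases Gs_pair hκ h hg c1 with ⟨a1, a2, -, -⟩ | ⟨N', m', a1, a2, a3, a4, a5, a6⟩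
      · rw [if_neg fun q => a2 q.1, if_neg fun q => a1 q.1, h, h']
      · rw [if_pos ⟨a2, hc⟩, if_pos ⟨a1, hc⟩]
        rw [a5] at hG
        rw [a6] at hG'
        exact ih g e N' m' he a3 ((hκ i).mem _ _ _ a4) _ (by omega) (by omega)
    · rw [if_neg fun q => hc q.2, if_neg fun q => hc q.2, h, h']

/-! ### The labels -/

private theorem cast_inj {a b : ℤ} (h : ((a : ℤ) : ZMod 3) = b) (h1 : a ≤ b + 1) (h2 : b ≤ a + 1) :
    a = b := by
  rw [ZMod.intCast_eq_intCast_iff] at h
  unfold Int.ModEq at h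
  omega

private theorem cast_succ {a b : ℤ} (h : ((a : ℤ) : ZMod 3) = b + 1) (h1 : a ≤ b + 1)
    (h2 : b ≤ a + 1) : a = b + 1 := by
  have h' : ((a : ℤ) : ZMod 3) = ((b + 1 : ℤ) : ZMod 3) := by
    rw [h]
    push_cast
    rfl
  rw [ZMod.intCast_eq_intCast_iff] at h'
  unfold Int.ModEq at h'
  omega

private theorem quad_of {a b c e : ℤ} (h1 : a ≤ b + 1) (h2 : b ≤ a + 1) (h3 : b ≤ c + 1)
    (h4 : c ≤ b + 1) (h5 : c ≤ e + 1) (h6 : e ≤ c + 1) (h7 : a ≤ e + 1) (h8 : e ≤ a + 1)
    (h9 : b ≤ max a c) (h10 : e ≤ max a c) (h11 : a ≤ max b e) (h12 : c ≤ max b e) :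
    Quad ((a : ℤ) : ZMod 3) b c e := by
  obtain ⟨i, hi⟩ : ∃ i, i = min (min a b) (min c e) := ⟨_, rfl⟩
  have key : ∀ x : ℤ, (x = i ∨ x = i + 1) → (((x : ℤ) : ZMod 3) = i ∨ ((x : ℤ) : ZMod 3) = i + 1) := by
    rintro x (rfl | rfl)
    · exact Or.inl rfl
    · right
      push_cast
      rfl
  have key2 : ∀ x : ℤ, (x = i ∨ x = i + 1) → ((x : ℤ) : ZMod 3) = i → x = i := fun x hx h =>
    cast_inj h (by omega) (by omega)
  have ha : a = i ∨ a = i + 1 := by omega
  have hb : b = i ∨ b = i + 1 := by omega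
  have hc : c = i ∨ c = i + 1 := by omega
  have he : e = i ∨ e = i + 1 := by omega
  refine ⟨i, key a ha, key b hb, key c hc, key e he, fun p q => ?_, fun p q => ?_⟩
  · have p' := key2 a ha p
    have q' := key2 c hc q
    have r1 : b = i := by omega
    have r2 : e = i := by omega
    rw [r1, r2]
    exact ⟨rfl, rfl⟩
  · have p' := key2 b hb p
    have q' := key2 e he q
    have r1 : a = i := by omega
    have r2 : c = i := by omega
    rw [r1, r2]
    exact ⟨rfl, rfl⟩

private theorem par_pred (i : ℤ) : NI.par (i - 1) = !NI.par i := by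
  have h := NI.par_succ (i - 1)
  rw [sub_add_cancel] at h
  rw [h, Bool.not_not]

private theorem sum_tun (t : ℤ) (k : Fin d) : ∑ j, (t • un k : Gd d) j = t := by
  rw [Finset.sum_eq_single k, tun_self]
  · intro j _ hj
    exact tun_off t hj
  · intro h
    exact absurd (Finset.mem_univ k) h

private theorem Lb_eq {i : ℕ} {g : Gd d} {N : ℕ} {m : Gd d} (h : κ i g = some (N, m)) :
    Lb κ s o i g =
      (((Hs κ s o i g : ℤ) : ZMod 3), NI.par (∑ k, g k - Ph κ s o i g (Hs κ s o i g))) := by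
  unfold Lb
  rw [h]

/-- the rules hold for the labels of stage `i` well inside the cubes -/
theorem stage_loc (hd : 0 < d) (hκ : ∀ i, Fld (κ i)) (hs : ∀ i, 0 < s i) (i : ℕ) (g : Gd d) (N : ℕ)
    (m : Gd d) (h : κ i g = some (N, m)) (h2 : Sh 2 N (g - m)) : Loc (Lb κ s o i) g := by
  have hin : ∀ v : Gd d, (∀ k, -2 ≤ v k ∧ v k ≤ 2) → Sh 0 N (g + v - m) := by
    intro v hv k
    have a1 := h2 k
    have a2 := hv k
    simp only [Pi.sub_apply, Pi.add_apply] at a1 ⊢
    omega
  have hin1 : ∀ e, Un e → Sh 0 N (g + e - m) := fun e he => hin e fun k => by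
    have := he.bd k
    omega
  have hin2 : ∀ e f, Un e → Un f → Sh 0 N (g + e + f - m) := fun e f he hf => by
    rw [add_assoc]
    refine hin _ fun k => ?_
    have a1 := he.bd k
    have a2 := hf.bd k
    rw [Pi.add_apply]
    omega
  have lip1 : ∀ e, Un e → Hs κ s o i (g + e) ≤ Hs κ s o i g + 1 ∧
      Hs κ s o i g ≤ Hs κ s o i (g + e) + 1 := fun e he => by
    refine ⟨Hs_lip hκ hs i g e N m he h (hin1 e he), ?_⟩
    have := Hs_lip (o := o) hκ hs i (g + e) (-e) N m he.neg ((hκ i).cst g N m h _ (hin1 e he)) (by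
      rw [add_neg_cancel_right]
      exact (hκ i).mem g N m h)
    rwa [add_neg_cancel_right] at this
  have lip2 : ∀ e f, Un e → Un f → Hs κ s o i (g + e + f) ≤ Hs κ s o i (g + e) + 1 ∧
      Hs κ s o i (g + e) ≤ Hs κ s o i (g + e + f) + 1 := fun e f he hf => by
    have k1 := (hκ i).cst g N m h _ (hin1 e he)
    have k2 := (hκ i).cst g N m h _ (hin2 e f he hf)
    refine ⟨Hs_lip hκ hs i (g + e) f N m hf k1 (hin2 e f he hf), ?_⟩
    have := Hs_lip (o := o) hκ hs i (g + e + f) (-f) N m hf.neg k2 (by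
      rw [add_neg_cancel_right]
      exact hin1 e he)
    rwa [add_neg_cancel_right] at this
  have q0 := Lb_eq (s := s) (o := o) h
  have q1 : ∀ e, Un e → Lb κ s o i (g + e) = (((Hs κ s o i (g + e) : ℤ) : ZMod 3),
      NI.par (∑ k, (g + e) k - Ph κ s o i (g + e) (Hs κ s o i (g + e)))) := fun e he =>
    Lb_eq ((hκ i).cst g N m h _ (hin1 e he))
  have q2 : ∀ e f, Un e → Un f → (Lb κ s o i (g + e + f)).1 =
      ((Hs κ s o i (g + e + f) : ℤ) : ZMod 3) := fun e f he hf => by
    rw [Lb_eq ((hκ i).cst g N m h _ (hin2 e f he hf))]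
  refine ⟨fun e he heq => ?_, fun e f he hf hne hne' => ?_, fun e f he hf hne hne' h3 h4 => ?_⟩
  · -- edges
    rw [q0, q1 e he] at heq ⊢
    obtain ⟨l1, l2⟩ := lip1 e he
    have h3 : Hs κ s o i (g + e) = Hs κ s o i g := (cast_inj heq l2 l1).symm
    have h4 := Ph_adj hκ hs i g e N m he h (hin1 e he) (Hs κ s o i g) le_rfl h3.le
    change NI.par (∑ k, g k - Ph κ s o i g (Hs κ s o i g)) ≠
      NI.par (∑ k, (g + e) k - Ph κ s o i (g + e) (Hs κ s o i (g + e)))
    rw [h3, h4]
    obtain ⟨k, t, ht, rfl⟩ := un_cases he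
    have h5 : ∑ j, (g + t • un k) j = ∑ j, g j + t := by
      simp only [Pi.add_apply]
      rw [Finset.sum_add_distrib, sum_tun]
    rw [h5]
    rcases ht with rfl | rfl
    · have e1 : ∑ j, g j + 1 - Ph κ s o i g (Hs κ s o i g) =
          (∑ j, g j - Ph κ s o i g (Hs κ s o i g)) + 1 := by ring
      rw [e1, NI.par_succ]
      simp
    · have e1 : ∑ j, g j + -1 - Ph κ s o i g (Hs κ s o i g) =
          (∑ j, g j - Ph κ s o i g (Hs κ s o i g)) - 1 := by ring
      rw [e1, par_pred]
      simp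
  · -- squares
    rw [q0, q1 e he, q1 f hf, q2 e f he hf]
    have hp := un_perp he hf hne hne'
    have hef : g + e + f = g + f + e := by abel
    obtain ⟨l1, l2⟩ := lip1 e he
    obtain ⟨l3, l4⟩ := lip1 f hf
    obtain ⟨l5, l6⟩ := lip2 e f he hf
    obtain ⟨l7, l8⟩ := lip2 f e hf he
    rw [← hef] at l7 l8
    have d1 := Hs_diag (o := o) hκ hs i g e f N m he.bd hf.bd hp h (hin1 e he) (hin1 f hf)
      (hin2 e f he hf) _ (le_max_left (Hs κ s o i g) (Hs κ s o i (g + e + f))) (le_max_right _ _)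
    have d2 := Hs_diag (o := o) hκ hs i g f e N m hf.bd he.bd (fun k => (hp k).symm) h (hin1 f hf)
      (hin1 e he) (hin2 f e hf he) (max (Hs κ s o i g) (Hs κ s o i (g + e + f))) (le_max_left _ _)
      (by rw [← hef]; exact le_max_right _ _)
    have k1 := (hκ i).cst g N m h _ (hin1 e he)
    have k2 := (hκ i).cst g N m h _ (hin1 f hf)
    have r1 : g + e + -e = g := add_neg_cancel_right g e
    have r2 : g + e + -e + f = g + f := by rw [r1]
    have r3 : g + e + f + -e = g + f := by abel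
    have d3 := Hs_diag (o := o) hκ hs i (g + e) (-e) f N m he.neg.bd hf.bd (fun k => by
        rw [Pi.neg_apply, neg_eq_zero]
        exact hp k) k1 (by rw [r1]; exact (hκ i).mem g N m h) (hin2 e f he hf)
      (by rw [r2]; exact hin1 f hf) (max (Hs κ s o i (g + e)) (Hs κ s o i (g + f)))
      (le_max_left _ _) (by rw [r2]; exact le_max_right _ _)
    have d4 := Hs_diag (o := o) hκ hs i (g + e) f (-e) N m hf.bd he.neg.bd (fun k => by
        rw [Pi.neg_apply, neg_eq_zero]
        exact (hp k).symm) k1 (hin2 e f he hf) (by rw [r1]; exact (hκ i).mem g N m h)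
      (by rw [r3]; exact hin1 f hf) (max (Hs κ s o i (g + e)) (Hs κ s o i (g + f)))
      (le_max_left _ _) (by rw [r3]; exact le_max_right _ _)
    rw [r1] at d3
    exact quad_of l2 l1 l6 l5 l7 l8 l4 l3 d1 d2 d3 d4
  · -- exits
    rw [q0, q1 e he] at h3
    rw [q0, q1 f hf] at h4
    rw [q0, q2 e e he he, q2 f f hf hf]
    obtain ⟨l1, l2⟩ := lip1 e he
    obtain ⟨l3, l4⟩ := lip1 f hf
    change ((Hs κ s o i (g + e) : ℤ) : ZMod 3) = ((Hs κ s o i g : ℤ) : ZMod 3) + 1 at h3
    change ((Hs κ s o i (g + f) : ℤ) : ZMod 3) = ((Hs κ s o i g : ℤ) : ZMod 3) + 1 at h4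
    change ((Hs κ s o i (g + e + e) : ℤ) : ZMod 3) = ((Hs κ s o i g : ℤ) : ZMod 3) + 2 ∨
      ((Hs κ s o i (g + f + f) : ℤ) : ZMod 3) = ((Hs κ s o i g : ℤ) : ZMod 3) + 2
    have h5 := cast_succ h3 l1 l2
    have h6 := cast_succ h4 l3 l4
    have fin : ∀ e, Un e → Hs κ s o i (g + e) = Hs κ s o i g + 1 →
        Hs κ s o i g + 2 ≤ Hs κ s o i (g + e + e) →
        ((Hs κ s o i (g + e + e) : ℤ) : ZMod 3) = ((Hs κ s o i g : ℤ) : ZMod 3) + 2 := by
      intro e he a1 a2
      have a3 := (lip2 e e he he).1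
      have a4 : Hs κ s o i (g + e + e) = Hs κ s o i g + 2 := by omega
      rw [a4]
      push_cast
      rfl
    obtain ⟨k, t, ht, ek⟩ := un_cases he
    obtain ⟨k', t', ht', ek'⟩ := un_cases hf
    have x1 := Hs_exit (o := o) hκ hs i g k t N m ht h (by rw [← ek]; exact hin1 e he)
      (by rw [← ek]; exact hin2 e e he he) (Hs κ s o i g) le_rfl (by rw [← ek]; exact h5.ge)
    rw [← ek] at x1
    rcases x1 with x1 | ⟨j, x1⟩
    · exact Or.inl (fin e he h5 x1)
    have x2 := Hs_exit (o := o) hκ hs i g k' t' N m ht' h (by rw [← ek']; exact hin1 f hf)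
      (by rw [← ek']; exact hin2 f f hf hf) (Hs κ s o i g) le_rfl (by rw [← ek']; exact h6.ge)
    rw [← ek'] at x2
    rcases x2 with x2 | ⟨j', x2⟩
    · exact Or.inr (fin f hf h6 x2)
    exfalso
    have hk := k.2
    have hk' := k'.2
    have h7 : (k : ℤ) + d * j = k' + d * j' := by
      have : -3 * (k : ℤ) - 3 * d * j = -3 * k' - 3 * d * j' := by rw [← x1, ← x2]
      linarith
    have h8 : ((k : ℕ) : ℤ) % d = ((k' : ℕ) : ℤ) % d := by
      have a1 := Int.add_mul_emod_self_left ((k : ℕ) : ℤ) d j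
      have a2 := Int.add_mul_emod_self_left ((k' : ℕ) : ℤ) d j'
      rw [← a1, ← a2, h7]
    rw [Int.emod_eq_of_lt (by positivity) (by exact_mod_cast hk),
      Int.emod_eq_of_lt (by positivity) (by exact_mod_cast hk')] at h8
    have h9 : k = k' := Fin.ext (by exact_mod_cast h8)
    subst h9
    have h10 := un_perp he hf hne hne' k
    rw [ek, ek', tun_self, tun_self] at h10
    omega

/-! ### Agreement -/

private theorem ediv_near {s : ℤ} (hs : 0 < s) {a b : ℤ} (h : a / s = b / s) :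
    -(s - 1) ≤ a - b ∧ a - b ≤ s - 1 := by
  have h0 := Int.emod_nonneg a hs.ne'
  have h1 := Int.emod_lt_of_pos a hs
  have h2 := Int.emod_nonneg b hs.ne'
  have h3 := Int.emod_lt_of_pos b hs
  have h4 := Int.emod_add_mul_ediv a s
  have h5 := Int.emod_add_mul_ediv b s
  rw [h] at h4
  omega

/-- the labels of two stages agree -/
theorem stage_agree (hκ : ∀ i, Fld (κ i)) (hs : ∀ i, 0 < s i) (i : ℕ) (g : Gd d)
    (h : Trans κ s o i g) : Lb κ s o (i + 1) g = Lb κ s o i g := by
  obtain ⟨N, m, N', m', h1, h2, h3, h4, h5⟩ := h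
  have hG : Good (κ (i + 1)) (κ i) (s (i + 1)) (o (i + 1)) g := by
    refine ⟨N', m', N, m, h2, h1, fun g' a1 a2 k => ?_⟩
    have a3 := ediv_near (by exact_mod_cast hs (i + 1)) (a2 k).1
    have a4 := h3 k
    simp only [Pi.sub_apply] at a3 a4 ⊢
    omega
  have hge := Hs_ge (κ := κ) (s := s) (o := o) i g
  have hle := Hs_le_two (o := o) hs hκ i g
  have hrho : (rho d (i + 1) : ℤ) = 3 * d * i + 3 * d + 2 := by
    unfold rho
    push_cast
    ring
  have hH : Hs κ s o (i + 1) g = Hs κ s o i g - 3 * d := by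
    have hGs : Gs κ s o i g = Hs κ s o i g - 3 * d := by
      unfold Gs
      rw [if_pos hG]
    apply le_antisymm
    · rw [Hs_le h2]
      refine ⟨hGs.le, fun k => ?_⟩
      have a1 := h4 k
      have a2 := h5 k
      rw [Pi.sub_apply] at a1
      rw [hrho] at a1 a2
      unfold fk
      have a3 : -3 * (d : ℤ) * i = -(3 * d * i) := by ring
      rw [a3] at hge
      omega
    · have := ((Hs_le (s := s) (o := o) h2 _).1 le_rfl).1
      rwa [hGs] at this
  have hP : Ph κ s o (i + 1) g (Hs κ s o (i + 1) g) = Ph κ s o i g (Hs κ s o i g) := by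
    rw [Ph, if_pos ⟨hG, by omega⟩, hH, sub_add_cancel]
  rw [Lb_eq h1, Lb_eq h2, hP, hH]
  congr 1
  push_cast
  have h3' : (3 : ZMod 3) = 0 := by decide
  rw [h3', zero_mul, sub_zero]

/-! ### Covariance -/

private theorem good_shift {κ κ' : Gd d → Option (ℕ × Gd d)} {s : ℕ} {o : Fin d → ℤ} (v : Gd d)
    {κ1 κ1' : Gd d → Option (ℕ × Gd d)}
    (h : ∀ g, κ1 g = (κ (g + v)).map fun p => (p.1, p.2 - v))
    (h' : ∀ g, κ1' g = (κ' (g + v)).map fun p => (p.1, p.2 - v)) (g : Gd d) :
    Good κ1 κ1' s o g ↔ Good κ κ' s o (g + v) := by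
  constructor
  · rintro ⟨N, m, N', m', h1, h2, h3⟩
    rw [h, Option.map_eq_some_iff] at h1
    rw [h', Option.map_eq_some_iff] at h2
    obtain ⟨⟨N1, m1⟩, h1, h4⟩ := h1
    obtain ⟨⟨N2, m2⟩, h2, h5⟩ := h2
    obtain ⟨rfl, rfl⟩ := Prod.mk.inj h4
    obtain ⟨rfl, rfl⟩ := Prod.mk.inj h5
    refine ⟨N1, m1, N2, m2, h1, h2, fun g' a1 a2 => ?_⟩
    have := h3 (g' - v) (by
      have e : g' - v - (m1 - v) = g' - m1 := by abel
      rw [e]
      exact a1) (by
      have e : g' - v - (m1 - v) = g' - m1 := by abel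
      have e2 : g - (m1 - v) = g + v - m1 := by abel
      rw [e, e2]
      exact a2)
    have e : g' - v - (m2 - v) = g' - m2 := by abel
    rwa [e] at this
  · rintro ⟨N, m, N', m', h1, h2, h3⟩
    refine ⟨N, m - v, N', m' - v, by rw [h, h1]; rfl, by rw [h', h2]; rfl, fun g' a1 a2 => ?_⟩
    have := h3 (g' + v) (by
      have e : g' + v - m = g' - (m - v) := by abel
      rw [e]
      exact a1) (by
      have e : g' + v - m = g' - (m - v) := by abel
      have e2 : g + v - m = g - (m - v) := by abel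
      rw [e, e2]
      exact a2)
    have e : g' + v - m' = g' - (m' - v) := by abel
    rwa [e] at this

private theorem Hs_shift {κ' : ℕ → Gd d → Option (ℕ × Gd d)} (v : Gd d)
    (h : ∀ i g, κ' i g = (κ i (g + v)).map fun p => (p.1, p.2 - v)) (i : ℕ) (g : Gd d) :
    Hs κ' s o i g = Hs κ s o i (g + v) := by
  induction i generalizing g with
  | zero => rfl
  | succ i ih =>
    rw [Hs, Hs, h]
    rcases hk : κ (i + 1) (g + v) with _ | ⟨N, m⟩
    · rfl
    · have hg := good_shift (s := s (i + 1)) (o := o (i + 1)) v (h (i + 1)) (h i) g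
      simp only [Option.map_some]
      congr 1
      · congr 1
        by_cases hG : Good (κ (i + 1)) (κ i) (s (i + 1)) (o (i + 1)) (g + v)
        · rw [if_pos hG, if_pos (hg.2 hG), ih]
        · rw [if_neg hG, if_neg fun q => hG (hg.1 q)]
      · funext k
        congr 1
        rw [Pi.sub_apply, Pi.add_apply]
        ring

private theorem par_even (x y : ℤ) (h : (x - y) % 2 = 0) : NI.par x = NI.par y := by
  unfold NI.par
  rw [decide_eq_decide]
  omega

private theorem cs_shift (v : Gd d) (N : ℕ) (m : Gd d) :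
    cs (some (N, m - v) : Option (ℕ × Gd d)) = cs (some (N, m)) - ∑ k, v k := by
  unfold cs
  simp only [Pi.sub_apply]
  rw [Finset.sum_sub_distrib]

private theorem Ph_shift {κ' : ℕ → Gd d → Option (ℕ × Gd d)} (v : Gd d)
    (h : ∀ i g, κ' i g = (κ i (g + v)).map fun p => (p.1, p.2 - v)) (i : ℕ) :
    ∀ (g : Gd d) (c : ℤ) (N : ℕ) (m : Gd d), κ i (g + v) = some (N, m) →
      Ph κ' s o i g c = Ph κ s o i (g + v) c - ∑ k, v k := by
  induction i with
  | zero =>
    intro g c N m hk
    rw [Ph, Ph, h, hk]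
    exact cs_shift v N m
  | succ i ih =>
    intro g c N m hk
    have hg := good_shift (s := s (i + 1)) (o := o (i + 1)) v (h (i + 1)) (h i) g
    rw [Ph, Ph]
    by_cases hG : Good (κ (i + 1)) (κ i) (s (i + 1)) (o (i + 1)) (g + v) ∧ c ≤ 2 - 3 * d
    · rw [if_pos hG, if_pos ⟨hg.2 hG.1, hG.2⟩]
      obtain ⟨N1, m1, N2, m2, -, h2, -⟩ := hG.1
      exact ih g _ N2 m2 h2
    · rw [if_neg hG, if_neg fun q => hG ⟨hg.1 q.1, q.2⟩, h, hk]
      exact cs_shift v N m

/-- covariance -/
theorem stage_shift {κ' : ℕ → Gd d → Option (ℕ × Gd d)} (v : Gd d)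
    (h : ∀ i g, κ' i g = (κ i (g + v)).map fun p => (p.1, p.2 - v)) (i : ℕ) (g : Gd d) :
    Lb κ' s o i g = Lb κ s o i (g + v) := by
  rcases hk : κ i (g + v) with _ | ⟨N, m⟩
  · have hk' : κ' i g = none := by
      rw [h, hk]
      rfl
    unfold Lb
    rw [hk, hk']
  · have hk' : κ' i g = some (N, m - v) := by
      rw [h, hk]
      rfl
    rw [Lb_eq hk, Lb_eq hk', Hs_shift v h, Ph_shift v h i g _ N m hk]
    have e : ∑ k, g k - (Ph κ s o i (g + v) (Hs κ s o i (g + v)) - ∑ k, v k) =
        ∑ k, (g + v) k - Ph κ s o i (g + v) (Hs κ s o i (g + v)) := by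
      simp only [Pi.add_apply]
      rw [Finset.sum_add_distrib]
      ring
    rw [e]

/-! ### Measurability -/

private theorem ms_prop {X : Type} [MeasurableSpace X] {p : X → Prop} (h : MeasurableSet {x | p x}) :
    Ms fun x => p x := by
  classical
  intro q
  by_cases hq : q
  · have e : {x | p x = q} = {x | p x} := by
      ext x
      simp [hq]
    rw [e]
    exact h
  · have e : {x | p x = q} = {x | p x}ᶜ := by
      ext x
      simp [hq]
    rw [e]
    exact h.compl

private theorem ms_ite {X S : Type} [MeasurableSpace X] {p : X → Prop}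
    (h : MeasurableSet {x | p x}) {f g : X → S} (hf : Ms f) (hg : Ms g) (F : X → S)
    (h1 : ∀ x, p x → F x = f x) (h2 : ∀ x, ¬ p x → F x = g x) : Ms F := by
  intro u
  have e : {x | F x = u} = ({x | p x} ∩ {x | f x = u}) ∪ ({x | p x}ᶜ ∩ {x | g x = u}) := by
    ext x
    simp only [Set.mem_ofPred_eq, Set.mem_union, Set.mem_inter_iff, Set.mem_compl_iff]
    by_cases hx : p x
    · rw [h1 x hx]
      simp [hx]
    · rw [h2 x hx]
      simp [hx]
  rw [e]
  exact (h.inter (hf u)).union (h.compl.inter (hg u))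

private theorem good_ms {X : Type} [MeasurableSpace X] {κ κ' : X → Gd d → Option (ℕ × Gd d)}
    (h : ∀ g, Ms fun x => κ x g) (h' : ∀ g, Ms fun x => κ' x g) (s : ℕ) (o : Fin d → ℤ) (g : Gd d) :
    MeasurableSet {x | Good (κ x) (κ' x) s o g} := by
  have e : {x | Good (κ x) (κ' x) s o g} = ⋃ (N : ℕ) (m : Gd d) (N' : ℕ) (m' : Gd d),
      (({x | κ x g = some (N, m)} ∩ {x | κ' x g = some (N', m')}) ∩
        {_x : X | ∀ g', Sh 0 N (g' - m) → Cell s o (g - m) (g' - m) → Sh 0 N' (g' - m')}) := by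
    ext x
    simp only [Set.mem_ofPred_eq, Set.mem_iUnion, Set.mem_inter_iff, Good, and_assoc]
  rw [e]
  exact MeasurableSet.iUnion fun N => MeasurableSet.iUnion fun m => MeasurableSet.iUnion fun N' =>
    MeasurableSet.iUnion fun m' => ((h g _).inter (h' g _)).inter (MeasurableSet.const _)

private theorem Hs_ms {X : Type} [MeasurableSpace X] {κ : X → ℕ → Gd d → Option (ℕ × Gd d)}
    (h : ∀ i g, Ms fun x => κ x i g) (i : ℕ) (g : Gd d) : Ms fun x => Hs (κ x) s o i g := by
  classical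
  induction i with
  | zero => exact Ms.const _
  | succ i ih =>
    have h1 : Ms fun x => if Good (κ x (i + 1)) (κ x i) (s (i + 1)) (o (i + 1)) g then
        Hs (κ x) s o i g else 0 :=
      ms_ite (good_ms (h (i + 1)) (h i) _ _ g) ih (Ms.const 0) _ (fun x hx => if_pos hx)
        fun x hx => if_neg hx
    have h2 := (h (i + 1) g).map2 h1 fun (c : Option (ℕ × Gd d)) (z : ℤ) =>
      match c with
      | none => 0
      | some (N, m) => Finset.univ.fold max (z - 3 * d)
          fun k : Fin d => fk N (s (i + 1)) (o (i + 1) k) k (g k - m k)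
    have e : (fun x => Hs (κ x) s o (i + 1) g) = fun x =>
        (fun (c : Option (ℕ × Gd d)) (z : ℤ) =>
          match c with
          | none => 0
          | some (N, m) => Finset.univ.fold max (z - 3 * d)
              fun k : Fin d => fk N (s (i + 1)) (o (i + 1) k) k (g k - m k)) (κ x (i + 1) g)
          (if Good (κ x (i + 1)) (κ x i) (s (i + 1)) (o (i + 1)) g then
            Hs (κ x) s o i g else 0) := by
      funext x
      simp only [Hs]
      rcases κ x (i + 1) g with _ | ⟨N, m⟩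
      · rfl
      · rfl
    rw [e]
    exact h2

private theorem Ph_ms {X : Type} [MeasurableSpace X] {κ : X → ℕ → Gd d → Option (ℕ × Gd d)}
    (h : ∀ i g, Ms fun x => κ x i g) (i : ℕ) : ∀ (g : Gd d) (c : ℤ),
      Ms fun x => Ph (κ x) s o i g c := by
  classical
  induction i with
  | zero =>
    intro g c
    exact (h 0 g).comp cs
  | succ i ih =>
    intro g c
    by_cases hc : c ≤ 2 - 3 * (d : ℤ)
    · refine ms_ite (good_ms (h (i + 1)) (h i) (s (i + 1)) (o (i + 1)) g) (ih g (c + 3 * d))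
        ((h (i + 1) g).comp cs) _ (fun x hx => ?_) fun x hx => ?_
      · rw [Ph, if_pos ⟨hx, hc⟩]
      · rw [Ph, if_neg fun q => hx q.1]
    · have e : (fun x => Ph (κ x) s o (i + 1) g c) = fun x => cs (κ x (i + 1) g) := by
        funext x
        rw [Ph, if_neg fun q => hc q.2]
      rw [e]
      exact (h (i + 1) g).comp cs

/-- measurability -/
theorem stage_ms {X : Type} [MeasurableSpace X] {κ : X → ℕ → Gd d → Option (ℕ × Gd d)}
    (h : ∀ i g, Ms fun x => κ x i g) (i : ℕ) (g : Gd d) : Ms fun x => Lb (κ x) s o i g := by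
  have h1 : Ms fun x => Ph (κ x) s o i g (Hs (κ x) s o i g) :=
    (Hs_ms h i g).bind fun c => Ph_ms h i g c
  have h2 := ((h i g).pair (Hs_ms (s := s) (o := o) h i g)).map2 h1
    fun (c : Option (ℕ × Gd d) × ℤ) (z : ℤ) =>
      (match c.1 with
      | none => (0, false)
      | some _ => (((c.2 : ℤ) : ZMod 3), NI.par (∑ k, g k - z)) : Lab)
  have e : (fun x => Lb (κ x) s o i g) = fun x =>
      (fun (c : Option (ℕ × Gd d) × ℤ) (z : ℤ) =>
        (match c.1 with
        | none => (0, false)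
        | some _ => (((c.2 : ℤ) : ZMod 3), NI.par (∑ k, g k - z)) : Lab)) (κ x i g, Hs (κ x) s o i g)
        (Ph (κ x) s o i g (Hs (κ x) s o i g)) := by
    funext x
    unfold Lb
    rcases κ x i g with _ | p
    · rfl
    · rfl
  rw [e]
  exact h2

end GTm
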